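import Pool.Agent.Work.MP_e7bfc9_mtc.Interface

/-!
# AEZ: Borel-Cantelli, counting form
-/

set_option autoImplicit false

open Finset MeasureTheory

namespace Pool.Mtc

theorem AEZ_sum (D : ℝ) (J' : ℕ) :
    Summable (fun j : ℕ => D / (((j + J' : ℕ) : ℝ)) ^ 2) := by
  have h : Summable (fun n : ℕ => 1 / ((n : ℝ)) ^ 2) :=
    Real.summable_one_div_nat_pow.2 one_lt_two
  have h2 : Summable (fun j : ℕ => 1 / (((j + J' : ℕ) : ℝ)) ^ 2) :=
    (summable_nat_add_iff (f := fun n : ℕ => 1 / ((n : ℝ)) ^ 2) J').2 h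
  have h3 := h2.mul_left D
  refine h3.congr ?_
  intro j
  rw [mul_one_div]

theorem p_AEZ (hWINZ : S_WINZ) : S_AEZ := by
  classical
  intro K z hyp
  have hex : ∀ m : ℕ, ∃ D c1 : ℝ, ∃ J' : ℕ, 0 < D ∧ 0 < c1 ∧ ∀ j : ℕ, J' ≤ j →
      volume (badz ((m : ℝ) + 1) (c1 / (j : ℝ) ^ 2) (win K 2 j) z) ≤
        ENNReal.ofReal (D / (j : ℝ) ^ 2) := by
    intro m
    exact hWINZ K z hyp ((m : ℝ) + 1)
      (by have : (0 : ℝ) ≤ m := Nat.cast_nonneg m
          linarith)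
  obtain ⟨C, B, J, c, m0, M0, lam, hc, _, _, _, hyp'⟩ := hyp
  have hK : ∀ j : ℕ, J ≤ j → c * 2 ^ j / (j : ℝ) ^ C ≤ ((win K 2 j).card : ℝ) :=
    fun j hj => (hyp' j hj).1
  choose D c1 J1 hD hc1 hvol using hex
  have key : ∀ m : ℕ, ∀ᵐ q : ℝ × ℝ, ∀ᶠ j in Filter.atTop,
      q ∉ badz ((m : ℝ) + 1) (c1 m / ((j : ℕ) : ℝ) ^ 2) (win K 2 j) z := by
    intro m
    have hsum : ∑' j : ℕ, volume (badz ((m : ℝ) + 1) (c1 m / ((j + J1 m : ℕ) : ℝ) ^ 2)
        (win K 2 (j + J1 m)) z) ≠ ⊤ := by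
      refine ne_top_of_le_ne_top ((AEZ_sum (D m) (J1 m)).tsum_ofReal_ne_top) ?_
      refine ENNReal.tsum_le_tsum fun j => ?_
      exact hvol m (j + J1 m) (by omega)
    have h1 := ae_eventually_notMem hsum
    filter_upwards [h1] with q hq
    rw [Filter.eventually_atTop] at hq ⊢
    obtain ⟨a, ha⟩ := hq
    refine ⟨a + J1 m, fun b hb => ?_⟩
    have h2 := ha (b - J1 m) (by omega)
    rwa [Nat.sub_add_cancel (by omega)] at h2
  rw [← ae_all_iff] at key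
  filter_upwards [key] with q hq hq2
  obtain ⟨m, hm⟩ := exists_nat_ge (max (|q.1|) (max q.2 (1 / q.2)))
  have hm1 : |q.1| ≤ m := le_trans (le_max_left _ _) hm
  have hm2 : q.2 ≤ m := le_trans (le_trans (le_max_left _ _) (le_max_right _ _)) hm
  have hm3 : 1 / q.2 ≤ m := le_trans (le_trans (le_max_right _ _) (le_max_right _ _)) hm
  have hM0 : (0 : ℝ) < (m : ℝ) + 1 := by positivity
  have hbox : q ∈ box ((m : ℝ) + 1) := by
    refine ⟨⟨?_, ?_⟩, ⟨?_, ?_⟩⟩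
    · have := neg_le_of_abs_le hm1
      linarith
    · have := le_of_abs_le hm1
      linarith
    · have h4 : 1 / q.2 ≤ (m : ℝ) + 1 := by linarith
      rw [div_le_iff₀ hM0]
      rw [div_le_iff₀ hq2] at h4
      linarith
    · linarith
  have h5 := hq m
  rw [Filter.eventually_atTop] at h5
  obtain ⟨J', hJ'⟩ := h5
  refine ⟨c1 m * c / 2, by have := hc1 m; positivity, C + 2, max (max J' J) 1, fun j hj => ?_⟩
  have hj1 : J' ≤ j := le_trans (le_trans (le_max_left _ _) (le_max_left _ _)) hj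
  have hj2 : J ≤ j := le_trans (le_trans (le_max_right _ _) (le_max_left _ _)) hj
  have hj3 : 1 ≤ j := le_trans (le_max_right _ _) hj
  have hj0 : (0 : ℝ) < j := by exact_mod_cast hj3
  have h6 := hJ' j hj1
  have h7 : c1 m / (j : ℝ) ^ 2 / 2 * ((win K 2 j).card : ℝ) <
      ∑ k ∈ win K 2 j, G1 (q.1 + q.2 * Real.log (z k)) := by
    by_contra hcon
    exact h6 ⟨hbox, not_lt.1 hcon⟩
  have h8 : ∑ k ∈ win K 2 j, G1 (q.1 + q.2 * Real.log (z k)) =
      (((win K 2 j).filter (fun k : ℕ =>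
        (⌊Real.exp (q.1 + q.2 * Real.log (z k))⌋₊).Prime)).card : ℝ) := by
    unfold G1
    rw [Finset.sum_boole]
  have h9 := hK j hj2
  have h10 : 0 ≤ c1 m / (j : ℝ) ^ 2 / 2 := by
    have := hc1 m
    positivity
  have h11 := mul_le_mul_of_nonneg_left h9 h10
  have e : c1 m * c / 2 * 2 ^ j / (j : ℝ) ^ (C + 2) =
      c1 m / (j : ℝ) ^ 2 / 2 * (c * 2 ^ j / (j : ℝ) ^ C) := by
    rw [pow_add]
    field_simp
  rw [e]
  have h12 := le_trans h11 h7.le
  rw [h8] at h12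
  refine le_trans h12 (le_of_eq ?_)
  refine congrArg (fun s : Finset ℕ => (s.card : ℝ)) ?_
  ext k
  simp only [Finset.mem_filter]

end Pool.Mtc
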