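import Pool.Agent.Work.MP_e7bfc9_mtc.Interface
import Pool.Agent.Work.MP_2176bb_mtc.B_MEA
import Pool.Agent.Work.MP_2176bb_mtc.B_PRM

/-! Block BADZ of MP_e7bfc9_nt (metric form): Chebyshev's inequality, counting form, general sequence. -/

set_option autoImplicit false

open Finset MeasureTheory

namespace Pool.Mtc

theorem p_BADZ (hSQZ : S_SQZ) (hME1 : S_ME1) : S_BADZ := by
  intro M K z W R T L h δ hM hW hR hT hh hδ hK hKW hKL hsep hmean
  obtain ⟨hGm, hG01⟩ := hME1
  obtain ⟨-, -, hMEA⟩ := p_MEA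
  obtain ⟨hmm, hm01, hgm⟩ := hMEA G1 hGm hG01 h hh
  set g : ℝ → ℝ := fun v => G1 v - mean G1 h v with hg
  have hgmeas : Measurable g := hGm.sub hmm
  have hsq := hSQZ g hgmeas hgm h hh.le (p_PRM p_MEA G1 hGm hG01 h hh) M K z W R T L hM hW hR hT hKW hKL hsep
  set X : ℝ := 6 * M * M * R + (2 * M + M * L) * h * (2 * T * (1 + Real.log W)) with hX
  set F : ℝ × ℝ → ℝ := fun q => (∑ k ∈ K, g (q.1 + q.2 * Real.log (z k))) ^ 2 with hF
  have hFmeas : Measurable F := by
    apply Measurable.pow_const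
    refine Finset.measurable_sum _ fun k _ => ?_
    exact hgmeas.comp (measurable_fst.add (measurable_snd.mul_const _))
  have hboxc : IsCompact (box M) := isCompact_Icc.prod isCompact_Icc
  have hboxm : MeasurableSet (box M) := hboxc.measurableSet
  have hboxf : volume (box M) ≠ ⊤ := hboxc.measure_lt_top.ne
  have hc : 0 < (K.card : ℝ) := by exact_mod_cast hK.card_pos
  have hFint : Integrable F (volume.restrict (box M)) := by
    refine Measure.integrableOn_of_bounded (M := (K.card : ℝ) ^ 2) hboxf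
      hFmeas.aestronglyMeasurable (Filter.Eventually.of_forall fun q => ?_)
    rw [Real.norm_eq_abs, abs_of_nonneg (sq_nonneg _)]
    have h1 : |∑ k ∈ K, g (q.1 + q.2 * Real.log (z k))| ≤ K.card := by
      refine (Finset.abs_sum_le_sum_abs _ _).trans ?_
      refine (Finset.sum_le_sum fun k _ => hgm _).trans ?_
      simp
    have h1b := pow_le_pow_left₀ (abs_nonneg _) h1 2
    rw [sq_abs] at h1b
    exact h1b
  have hmark := mul_meas_ge_le_integral_of_nonneg (μ := volume.restrict (box M)) (f := F)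
    (Filter.Eventually.of_forall fun q => sq_nonneg _) hFint ((δ / 2 * K.card) ^ 2)
  set S : Set (ℝ × ℝ) := {q | (δ / 2 * (K.card : ℝ)) ^ 2 ≤ F q} with hS
  have hSm : MeasurableSet S := measurableSet_le measurable_const hFmeas
  have hbad : badz M δ K z ⊆ S ∩ box M := by
    rintro q ⟨hq, hq0⟩
    refine ⟨?_, hq⟩
    have h2 : ∑ k ∈ K, g (q.1 + q.2 * Real.log (z k)) ≤ -(δ / 2 * K.card) := by
      have h3 : ∑ k ∈ K, g (q.1 + q.2 * Real.log (z k)) = ∑ k ∈ K, G1 (q.1 + q.2 * Real.log (z k)) -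
          ∑ k ∈ K, mean G1 h (q.1 + q.2 * Real.log (z k)) := by
        simp only [hg]
        rw [Finset.sum_sub_distrib]
      have h4 : ∑ k ∈ K, δ ≤ ∑ k ∈ K, mean G1 h (q.1 + q.2 * Real.log (z k)) :=
        Finset.sum_le_sum fun k hk => hmean q hq k hk
      rw [Finset.sum_const, nsmul_eq_mul] at h4
      rw [h3]
      linarith
    have h6 : 0 < δ / 2 * K.card := mul_pos (half_pos hδ) hc
    change (δ / 2 * (K.card : ℝ)) ^ 2 ≤ (∑ k ∈ K, g (q.1 + q.2 * Real.log (z k))) ^ 2
    nlinarith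
  have h7 : volume (badz M δ K z) ≤ (volume.restrict (box M)) S := by
    rw [Measure.restrict_apply hSm]
    exact measure_mono hbad
  have hfin : (volume.restrict (box M)) S ≠ ⊤ := by
    refine ((measure_mono (Set.subset_univ S)).trans_lt ?_).ne
    rw [Measure.restrict_apply_univ]
    exact hboxf.lt_top
  refine h7.trans ?_
  rw [← ENNReal.ofReal_toReal hfin]
  apply ENNReal.ofReal_le_ofReal
  have h8 : (δ / 2 * (K.card : ℝ)) ^ 2 * ((volume.restrict (box M)) S).toReal ≤ K.card * X :=
    le_trans hmark hsq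
  rw [le_div_iff₀ (by positivity)]
  have h9 : ((volume.restrict (box M)) S).toReal * (δ ^ 2 * K.card) * K.card ≤ 4 * X * K.card := by
    calc _ = 4 * ((δ / 2 * (K.card : ℝ)) ^ 2 * ((volume.restrict (box M)) S).toReal) := by ring
      _ ≤ 4 * (K.card * X) := by linarith
      _ = 4 * X * K.card := by ring
  exact le_of_mul_le_mul_right h9 hc

end Pool.Mtc
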