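import Pool.Agent.Work.MP_e7bfc9_mtc.Interface
import Pool.Agent.Work.MP_2176bb_mtc.B_TH

/-! Block BAS (typed by helper16). -/

set_option autoImplicit false

open Finset MeasureTheory

namespace Pool.Mtc

theorem BAS_floor (j : ℕ) : ⌊(2 : ℝ) ^ j⌋₊ = 2 ^ j := by
  have h : (2 : ℝ) ^ j = ((2 ^ j : ℕ) : ℝ) := by push_cast; rfl
  rw [h, Nat.floor_natCast]

theorem BAS_mem {k j : ℕ} : k ∈ win Nat.Prime 2 j ↔ (2 ^ j < k ∧ k ≤ 2 ^ (j + 1)) ∧ k.Prime := by
  simp only [win, Finset.mem_filter, Finset.mem_Ioc, BAS_floor]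

theorem BAS_dens : ∃ x0 : ℝ, ∀ j : ℕ, 1 ≤ j → x0 ≤ (2 : ℝ) ^ j →
    1 / 2 * 2 ^ j / (j : ℝ) ^ 1 ≤ ((win Nat.Prime 2 j).card : ℝ) := by
  classical
  obtain ⟨x0, _, hx⟩ := p_TH 0
  refine ⟨x0, fun j hj hj0 => ?_⟩
  have h1 := hx (2 ^ j) 1 hj0 one_pos le_rfl (by simp)
  have hjr : (1 : ℝ) ≤ j := by exact_mod_cast hj
  have e2 : (1 + 1 : ℝ) * 2 ^ j = 2 ^ (j + 1) := by rw [pow_succ]; ring
  rw [e2] at h1
  have hsub : Chebyshev.theta ((2 : ℝ) ^ (j + 1)) - Chebyshev.theta ((2 : ℝ) ^ j) =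
      ∑ p ∈ win Nat.Prime 2 j, Real.log p := by
    rw [Chebyshev.theta, Chebyshev.theta, BAS_floor, BAS_floor]
    have hle : 2 ^ j ≤ 2 ^ (j + 1) := Nat.pow_le_pow_right (by norm_num) (by omega)
    have hu : (Finset.Ioc 0 (2 ^ (j + 1))).filter Nat.Prime =
        (Finset.Ioc 0 (2 ^ j)).filter Nat.Prime ∪ win Nat.Prime 2 j := by
      ext p
      rw [Finset.mem_union, BAS_mem, Finset.mem_filter, Finset.mem_filter, Finset.mem_Ioc,
        Finset.mem_Ioc]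
      constructor
      · rintro ⟨⟨ha, hb⟩, hp⟩
        rcases le_or_gt p (2 ^ j) with h | h
        · exact Or.inl ⟨⟨ha, h⟩, hp⟩
        · exact Or.inr ⟨⟨h, hb⟩, hp⟩
      · rintro (⟨⟨ha, hb⟩, hp⟩ | ⟨⟨ha, hb⟩, hp⟩)
        · exact ⟨⟨ha, hb.trans hle⟩, hp⟩
        · exact ⟨⟨by omega, hb⟩, hp⟩
    have hdis : Disjoint ((Finset.Ioc 0 (2 ^ j)).filter Nat.Prime) (win Nat.Prime 2 j) := by
      rw [Finset.disjoint_left]
      intro p hp hp'
      rw [Finset.mem_filter, Finset.mem_Ioc] at hp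
      rw [BAS_mem] at hp'
      omega
    rw [hu, Finset.sum_union hdis]
    ring
  rw [hsub] at h1
  have h2 : ∑ p ∈ win Nat.Prime 2 j, Real.log p ≤ (win Nat.Prime 2 j).card * (2 * (j : ℝ) * Real.log 2) := by
    rw [← nsmul_eq_mul]
    apply Finset.sum_le_card_nsmul
    intro p hp
    rw [BAS_mem] at hp
    have hp0 : (0 : ℝ) < p := by exact_mod_cast hp.2.pos
    have hp1 : (p : ℝ) ≤ 2 ^ (j + 1) := by exact_mod_cast hp.1.2
    have h3 : Real.log p ≤ Real.log (2 ^ (j + 1)) := Real.log_le_log hp0 hp1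
    rw [Real.log_pow] at h3
    push_cast at h3
    have hl2 : 0 ≤ Real.log 2 := Real.log_nonneg (by norm_num)
    nlinarith
  have hl2 : Real.log 2 < 9 / 10 := by
    have := Real.log_two_lt_d9
    linarith
  have hl20 : 0 < Real.log 2 := Real.log_pos (by norm_num)
  rw [pow_one, div_le_iff₀ (by linarith)]
  have hc : (0 : ℝ) ≤ (win Nat.Prime 2 j).card := Nat.cast_nonneg _
  have h4 : ((win Nat.Prime 2 j).card : ℝ) * (2 * (j : ℝ) * Real.log 2) ≤
      (win Nat.Prime 2 j).card * (2 * (j : ℝ) * (9 / 10)) := by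
    apply mul_le_mul_of_nonneg_left _ hc
    nlinarith
  nlinarith

theorem p_BAS (hFNC : S_FNC) : S_BAS := by
  obtain ⟨hf1, hf2, y0, hy⟩ := hFNC
  obtain ⟨x0, hx⟩ := BAS_dens
  have hlog2 : 0 < Real.log 2 := Real.log_pos (by norm_num)
  have hlog21 : Real.log 2 ≤ 1 := by
    have := Real.log_two_lt_d9
    linarith
  refine ⟨1, 3, max 8 (max ⌈x0⌉₊ y0), 1 / 2, Real.log 2, 6, 2, by norm_num, hlog2, by norm_num, le_rfl,
    fun j hj => ?_⟩
  have hj8 : 8 ≤ j := (le_max_left _ _).trans hj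
  have hj1 : ⌈x0⌉₊ ≤ j := ((le_max_left _ _).trans (le_max_right _ _)).trans hj
  have hj2 : y0 ≤ j := ((le_max_right _ _).trans (le_max_right _ _)).trans hj
  have hjr : (8 : ℝ) ≤ j := by exact_mod_cast hj8
  have hjp : j < 2 ^ j := Nat.lt_two_pow_self
  have hfk : ∀ k ∈ win Nat.Prime 2 j, (2 : ℝ) ^ j < k ∧ (k : ℝ) ≤ fq k ∧
      Real.log k ≤ 2 * j ∧ (fq k : ℝ) ≤ k * (2 * j) ^ 2 ∧ (k : ℝ) ≤ 2 ^ (j + 1) := by
    intro k hk
    rw [BAS_mem] at hk
    have h2k := hk.2.two_le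
    have ha := hf1 2 k le_rfl h2k
    rw [hf2] at ha
    have hb : k ≤ fq k := by omega
    have hk0 : (0 : ℝ) < k := by exact_mod_cast hk.2.pos
    have hk1 : (k : ℝ) ≤ 2 ^ (j + 1) := by exact_mod_cast hk.1.2
    have h3 : Real.log k ≤ Real.log (2 ^ (j + 1)) := Real.log_le_log hk0 hk1
    rw [Real.log_pow] at h3
    push_cast at h3
    have h4 : Real.log k ≤ 2 * j := by nlinarith
    have h5 : 0 ≤ Real.log k := Real.log_nonneg (by exact_mod_cast hk.2.one_lt.le)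
    have h6 := hy k (by omega)
    refine ⟨by exact_mod_cast hk.1.1, by exact_mod_cast hb, h4, h6.trans ?_, hk1⟩
    exact mul_le_mul_of_nonneg_left (pow_le_pow_left₀ h5 h4 2) hk0.le
  refine ⟨?_, ?_, ?_⟩
  · apply hx j (by omega)
    calc x0 ≤ ⌈x0⌉₊ := Nat.le_ceil _
      _ ≤ j := by exact_mod_cast hj1
      _ ≤ 2 ^ j := by exact_mod_cast hjp.le
  · intro k hk
    obtain ⟨h1, h2, h3, h4, h5⟩ := hfk k hk
    have hk0 : (0 : ℝ) < k := lt_trans (by positivity) h1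
    constructor
    · have h6 : Real.log (2 ^ j) ≤ Real.log (fq k) := Real.log_le_log (by positivity) (h1.le.trans h2)
      rw [Real.log_pow] at h6
      linarith
    · have h6 : Real.log (fq k) ≤ Real.log (k * (2 * j) ^ 2) :=
        Real.log_le_log (hk0.trans_le h2) h4
      rw [Real.log_mul hk0.ne' (by positivity), Real.log_pow] at h6
      have h7 : Real.log (2 * j) ≤ 2 * j - 1 := Real.log_le_sub_one_of_pos (by positivity)
      push_cast at h6
      linarith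
  · intro k hk k' hk' hkk
    obtain ⟨h1, h2, h3, h4, h5⟩ := hfk k hk
    obtain ⟨h1', h2', h3', h4', h5'⟩ := hfk k' hk'
    have hk0 : (0 : ℝ) < k := lt_trans (by positivity) h1
    have hk0' : (0 : ℝ) < k' := lt_trans (by positivity) h1'
    have hf0 : (0 : ℝ) < fq k := hk0.trans_le h2
    have hf0' : (0 : ℝ) < fq k' := hk0'.trans_le h2'
    have e1 : (2 / 2 : ℝ) ^ j = 1 := by norm_num
    rw [e1] at hkk
    have hlt : k' ≤ k := by
      have : (k' : ℝ) ≤ k := by linarith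
      exact_mod_cast this
    have h2k' : 2 ≤ k' := (BAS_mem.1 hk').2.two_le
    have ha := hf1 k' k h2k' hlt
    have hb : (k : ℝ) - k' ≤ fq k - fq k' := by
      have : ((k - k' + fq k' : ℕ) : ℝ) ≤ fq k := by exact_mod_cast ha
      rw [Nat.cast_add, Nat.cast_sub hlt] at this
      linarith
    have hc : 1 - ((fq k : ℝ) / fq k')⁻¹ ≤ Real.log ((fq k : ℝ) / fq k') :=
      Real.one_sub_inv_le_log_of_pos (by positivity)
    rw [Real.log_div hf0.ne' hf0'.ne', inv_div] at hc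
    have hd : (1 : ℝ) - (fq k' : ℝ) / fq k = (fq k - fq k') / fq k := by
      field_simp
    rw [hd] at hc
    refine le_trans ?_ hc
    have hf4 : (fq k : ℝ) ≤ 2 ^ j * (j : ℝ) ^ 3 := by
      calc (fq k : ℝ) ≤ k * (2 * j) ^ 2 := h4
        _ ≤ 2 ^ (j + 1) * (2 * j) ^ 2 := mul_le_mul_of_nonneg_right h5 (by positivity)
        _ = 2 ^ j * ((j : ℝ) ^ 2 * 8) := by rw [pow_succ]; ring
        _ ≤ 2 ^ j * ((j : ℝ) ^ 2 * j) := by gcongr
        _ = 2 ^ j * (j : ℝ) ^ 3 := by ring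
    exact div_le_div₀ (by linarith) hb hf0 hf4

end Pool.Mtc
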