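import Pool.Agent.Work.MP_e7bfc9_mtc.Interface

set_option autoImplicit false

open Finset MeasureTheory

namespace Pool.Mtc

theorem p_CHN (hIND : S_IND) (hBAS : S_BAS) : S_CHN := by
  intro m
  exact hIND m Nat.Prime (fun k => k) hBAS

end Pool.Mtc
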