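import Pool.Agent.Work.MP_e7bfc9_mtc.Interface
import Pool.Agent.Work.MP_2176bb_mtc.B_TH
import Pool.Agent.Work.MP_2176bb_mtc.B_GAP

/-!
# Block DE1: lower bound for the means of `G1`
-/

set_option autoImplicit false

open Finset MeasureTheory

namespace Pool.Mtc

theorem DE1_log (p : ℕ) (hp : 1 ≤ p) :
    1 / ((p : ℝ) + 1) ≤ Real.log ((p : ℝ) + 1) - Real.log p := by
  have h0 : (0 : ℝ) < p := by exact_mod_cast hp
  have h1 := Real.log_le_sub_one_of_pos (show (0 : ℝ) < p / (p + 1) by positivity)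
  rw [Real.log_div h0.ne' (by positivity)] at h1
  have h2 : (p : ℝ) / (p + 1) - 1 = -(1 / ((p : ℝ) + 1)) := by
    field_simp
    ring
  linarith

theorem DE1_mem (p : ℕ) (hp : 1 ≤ p) (w : ℝ) :
    w ∈ Set.Ico (Real.log p) (Real.log ((p : ℝ) + 1)) ↔ ⌊Real.exp w⌋₊ = p := by
  have h0 : (0 : ℝ) < p := by exact_mod_cast hp
  rw [Nat.floor_eq_iff (Real.exp_pos w).le, Set.mem_Ico, Real.log_le_iff_le_exp h0,
    Real.lt_log_iff_exp_lt (by positivity)]

theorem DE1_meas : Measurable G1 := by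
  unfold G1
  refine Measurable.ite ?_ measurable_const measurable_const
  exact (Nat.measurable_floor.comp Real.measurable_exp) (MeasurableSet.of_discrete (s := {n : ℕ | n.Prime}))

theorem DE1_bd (v : ℝ) : 0 ≤ G1 v ∧ G1 v ≤ 1 := by
  unfold G1
  split_ifs <;> norm_num

open Classical in
theorem DE1_sum (P : Finset ℕ) (hP : ∀ p ∈ P, 1 ≤ p ∧ p.Prime) (w : ℝ) :
    ∑ p ∈ P, (Set.Ico (Real.log p) (Real.log ((p : ℝ) + 1))).indicator (fun _ => (1 : ℝ)) w ≤
      G1 w := by
  have h1 : ∀ p ∈ P, (Set.Ico (Real.log p) (Real.log ((p : ℝ) + 1))).indicator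
      (fun _ => (1 : ℝ)) w = if ⌊Real.exp w⌋₊ = p then 1 else 0 := by
    intro p hp
    rw [Set.indicator_apply]
    exact if_congr (DE1_mem p (hP p hp).1 w) rfl rfl
  rw [sum_congr rfl h1, sum_ite_eq]
  unfold G1
  split_ifs with h2 h3 h3
  · exact le_rfl
  · exact absurd (hP _ h2).2 h3
  · exact zero_le_one
  · exact le_rfl

/-- DE1. -/
theorem p_DE1 : S_DE1 := by
  intro A
  obtain ⟨x0, hx0, hit⟩ := p_TH (A + 1)
  have hev : ∀ᶠ v : ℝ in Filter.atTop, 2 * v ^ A ≤ Real.exp v := by
    have h1 := (Real.isLittleO_pow_exp_atTop (n := A)).bound (show (0 : ℝ) < 1 / 2 by norm_num)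
    filter_upwards [h1, Filter.eventually_ge_atTop 0] with v hv hv0
    rw [Real.norm_of_nonneg (by positivity), Real.norm_of_nonneg (Real.exp_pos v).le] at hv
    linarith
  obtain ⟨v1, hv1⟩ := Filter.eventually_atTop.1 hev
  refine ⟨max (max v1 2) (Real.log x0), ?_, fun v h hv hh0 hh1 hhv => ?_⟩
  · exact le_trans (by norm_num) ((le_max_right v1 2).trans (le_max_left _ _))
  have hva : v1 ≤ v := ((le_max_left v1 2).trans (le_max_left _ _)).trans hv
  have hvb : 2 ≤ v := ((le_max_right v1 2).trans (le_max_left _ _)).trans hv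
  have hvc : Real.log x0 ≤ v := (le_max_right _ _).trans hv
  have hv0 : 0 < v := by linarith
  set x := Real.exp v with hx
  have hxpos : 0 < x := Real.exp_pos v
  have hlogx : Real.log x = v := Real.log_exp v
  have hxx0 : x0 ≤ x := by
    rw [← Real.log_le_iff_le_exp (by linarith)]
    exact hvc
  have hbig : 1 ≤ h * x / 2 := by
    have h1 := hv1 v hva
    have h2 : h * (2 * v ^ A) ≤ h * x := mul_le_mul_of_nonneg_left h1 hh0.le
    linarith
  have h3 : 1 ≤ h / 2 * Real.log x ^ (A + 1) := by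
    rw [hlogx, pow_succ]
    have h4 : h / 2 * (v ^ A * v) = (h * v ^ A) * (v / 2) := by ring
    rw [h4]
    have h5 : (1 : ℝ) ≤ v / 2 := by linarith
    nlinarith
  have hmain := hit x (h / 2) hxx0 (by linarith) (by linarith) h3
  set a := ⌊x⌋₊ with ha
  set b := ⌊(1 + h / 2) * x⌋₊ with hb
  have hx1 : 1 ≤ x := by linarith
  have hxy : x ≤ (1 + h / 2) * x := by nlinarith
  have hab : a ≤ b := Nat.floor_le_floor hxy
  set P := (Ioc a b).filter (fun p => p.Prime) with hPdef
  have hkey := GAP_key x ((1 + h / 2) * x) hx1 hxy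
  have hpcd : pc ((1 + h / 2) * x) - pc x = (P.card : ℝ) := by
    unfold pc
    rw [GAP_pc, GAP_pc, ← Finset.sum_Ioc_consecutive _ (Nat.zero_le _) hab, hPdef, Finset.card_filter]
    push_cast
    ring
  rw [hpcd] at hkey
  have hlogy : Real.log ((1 + h / 2) * x) ≤ 2 * v := by
    have h4 : Real.log ((1 + h / 2) * x) ≤ Real.log (2 * x) := Real.log_le_log (by positivity) (by nlinarith)
    have h5 : Real.log (2 * x) = Real.log 2 + Real.log x := Real.log_mul (by norm_num) hxpos.ne'
    have h6 : Real.log 2 ≤ 1 := by linarith [Real.log_two_lt_d9]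
    linarith
  have hcard : h * x / (64 * v ^ 2) ≤ (P.card : ℝ) := by
    have h7 : (9 / 20) * (h * x) ≤ 2 * v * (P.card : ℝ) := by
      have h8 := mul_le_mul_of_nonneg_right hlogy (Nat.cast_nonneg (α := ℝ) P.card)
      linarith
    rw [div_le_iff₀ (by positivity)]
    have h9 : 0 ≤ h * x := by positivity
    have h10 : 2 * v * (P.card : ℝ) ≤ 2 * v ^ 2 * (P.card : ℝ) := by
      apply mul_le_mul_of_nonneg_right _ (Nat.cast_nonneg _)
      nlinarith
    nlinarith
  have hPm : ∀ p ∈ P, (a < p ∧ p ≤ b) ∧ p.Prime := by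
    intro p hp
    rw [hPdef, mem_filter, mem_Ioc] at hp
    exact hp
  have hP1 : ∀ p ∈ P, 1 ≤ p ∧ p.Prime := fun p hp =>
    ⟨(hPm p hp).2.one_lt.le, (hPm p hp).2⟩
  have hPx : ∀ p ∈ P, x < p := fun p hp => Nat.lt_of_floor_lt (hPm p hp).1.1
  have hPx2 : ∀ p ∈ P, (p : ℝ) + 1 ≤ (1 + h) * x := by
    intro p hp
    have h4 : (p : ℝ) ≤ b := by exact_mod_cast (hPm p hp).1.2
    have h5 : (b : ℝ) ≤ (1 + h / 2) * x := Nat.floor_le (by positivity)
    linarith
  have hPlog : ∀ p ∈ P, v < Real.log p := by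
    intro p hp
    rw [Real.lt_log_iff_exp_lt (hxpos.trans (hPx p hp))]
    exact hPx p hp
  have hPlog2 : ∀ p ∈ P, Real.log ((p : ℝ) + 1) ≤ v + h := by
    intro p hp
    rw [Real.log_le_iff_le_exp (by positivity), Real.exp_add]
    refine (hPx2 p hp).trans ?_
    have h4 : 1 + h ≤ Real.exp h := by linarith [Real.add_one_le_exp h]
    nlinarith
  -- the integral
  have hGi : IntegrableOn G1 (Set.Ioc v (v + h)) := by
    apply Measure.integrableOn_of_bounded (M := 1)
    · simp
    · exact DE1_meas.aestronglyMeasurable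
    · filter_upwards with w
      rw [Real.norm_of_nonneg (DE1_bd w).1]
      exact (DE1_bd w).2
  have hIi : ∀ p ∈ P, IntegrableOn (fun w => (Set.Ico (Real.log p)
      (Real.log ((p : ℝ) + 1))).indicator (fun _ => (1 : ℝ)) w) (Set.Ioc v (v + h)) := by
    intro p _
    apply IntegrableOn.indicator _ measurableSet_Ico
    exact integrableOn_const (by simp)
  have hint : ∀ p ∈ P, ∫ w in Set.Ioc v (v + h), (Set.Ico (Real.log p)
      (Real.log ((p : ℝ) + 1))).indicator (fun _ => (1 : ℝ)) w =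
      Real.log ((p : ℝ) + 1) - Real.log p := by
    intro p hp
    have hp0 : (0 : ℝ) < p := hxpos.trans (hPx p hp)
    rw [setIntegral_indicator measurableSet_Ico]
    have h4 : Set.Ioc v (v + h) ∩ Set.Ico (Real.log p) (Real.log ((p : ℝ) + 1)) =
        Set.Ico (Real.log p) (Real.log ((p : ℝ) + 1)) := by
      apply Set.inter_eq_right.2
      intro w hw
      exact ⟨(hPlog p hp).trans_le hw.1, hw.2.le.trans (hPlog2 p hp)⟩
    rw [h4]
    have h5 : Real.log p ≤ Real.log ((p : ℝ) + 1) := Real.log_le_log hp0 (by linarith)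
    simp [h5]
  have hlow : ∑ p ∈ P, (Real.log ((p : ℝ) + 1) - Real.log p) ≤
      ∫ w in Set.Ioc v (v + h), G1 w := by
    rw [← sum_congr rfl hint, ← integral_finsetSum P hIi]
    apply setIntegral_mono_on
    · exact integrable_finsetSum P hIi
    · exact hGi
    · exact measurableSet_Ioc
    · intro w _
      exact DE1_sum P hP1 w
  have hlow2 : (P.card : ℝ) * (1 / (2 * x)) ≤ ∑ p ∈ P, (Real.log ((p : ℝ) + 1) - Real.log p) := by
    rw [← nsmul_eq_mul]
    apply card_nsmul_le_sum
    intro p hp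
    refine le_trans ?_ (DE1_log p (hP1 p hp).1)
    apply one_div_le_one_div_of_le (by positivity)
    have h4 := hPx2 p hp
    nlinarith
  have hfin : h / (128 * v ^ 2) ≤ ∫ w in Set.Ioc v (v + h), G1 w := by
    refine le_trans ?_ (hlow2.trans hlow)
    calc h / (128 * v ^ 2) = h * x / (64 * v ^ 2) * (1 / (2 * x)) := by
          field_simp
          ring
      _ ≤ _ := mul_le_mul_of_nonneg_right hcard (by positivity)
  unfold mean
  rw [intervalIntegral.integral_of_le (by linarith)]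
  calc 1 / (256 * v ^ 2) ≤ 1 / (128 * v ^ 2) := by
        apply one_div_le_one_div_of_le (by positivity)
        nlinarith [sq_nonneg v]
    _ = 1 / h * (h / (128 * v ^ 2)) := by field_simp
    _ ≤ _ := mul_le_mul_of_nonneg_left hfin (by positivity)

end Pool.Mtc
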