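import Pool.Agent.Work.MP_e7bfc9_mtc.Interface
import Pool.Agent.Work.MP_2176bb_mtc.B_TRF

set_option autoImplicit false

open Finset MeasureTheory

namespace Pool.Mtc

open Classical in
theorem DNS_win (K : ℕ → Prop) (ρ : ℝ) (j k : ℕ) :
    k ∈ win K ρ j ↔ (⌊ρ ^ j⌋₊ < k ∧ k ≤ ⌊ρ ^ (j + 1)⌋₊) ∧ K k := by
  unfold win
  rw [Finset.mem_filter, Finset.mem_Ioc]

open Classical in
theorem p_DNS (hAEZ : S_AEZ) : S_DNS := by
  intro K z hK
  have h := hAEZ K z hK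
  obtain ⟨C, B, J, c, m, M0, lam, hc, hm, hlam, hlam2, hJ⟩ := hK
  apply p_TRF (fun q => ∃ c' : ℝ, 0 < c' ∧ ∃ C' J' : ℕ, ∀ j : ℕ, J' ≤ j →
    c' * 2 ^ j / (j : ℝ) ^ C' ≤ ((win (fun k => K k ∧ (nx q (z k)).Prime) 2 j).card : ℝ))
  filter_upwards [h] with q hq hq2
  obtain ⟨c', hc', C', J', hJ'⟩ := hq hq2
  refine ⟨c', hc', C', max J' (max J 1), fun j hj => ?_⟩
  have hj1 : J' ≤ j := (le_max_left _ _).trans hj
  have hj2 : J ≤ j := ((le_max_left _ _).trans (le_max_right _ _)).trans hj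
  have hj3 : 1 ≤ j := ((le_max_right _ _).trans (le_max_right _ _)).trans hj
  refine (hJ' j hj1).trans ?_
  have hsub : (win K 2 j).filter (fun k => (⌊Real.exp (q.1 + q.2 * Real.log (z k))⌋₊).Prime) ⊆
      win (fun k => K k ∧ (nx (Real.exp q.1, q.2) (z k)).Prime) 2 j := by
    intro k hk
    rw [Finset.mem_filter] at hk
    obtain ⟨hk1, hk2⟩ := hk
    have h1 := (hJ j hj2).2.1 k hk1
    rw [DNS_win] at hk1 ⊢
    refine ⟨hk1.1, hk1.2, ?_⟩
    have hjpos : (0 : ℝ) < j := Nat.cast_pos.2 hj3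
    have hlog : 0 < Real.log (z k) := (mul_pos hm hjpos).trans_le h1.1
    have hz : (0 : ℝ) < z k := by
      rcases (Nat.cast_nonneg (z k) : (0 : ℝ) ≤ z k).lt_or_eq with h2 | h2
      · exact h2
      · rw [← h2, Real.log_zero] at hlog
        exact absurd hlog (lt_irrefl _)
    have h3 : Real.exp q.1 * (z k : ℝ) ^ q.2 = Real.exp (q.1 + q.2 * Real.log (z k)) := by
      rw [Real.rpow_def_of_pos hz, ← Real.exp_add, mul_comm (Real.log (z k))]
    show (⌊Real.exp q.1 * (z k : ℝ) ^ q.2⌋₊).Prime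
    rw [h3]
    exact hk2
  exact_mod_cast Finset.card_le_card hsub

end Pool.Mtc
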