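import Pool.Agent.Work.MP_e7bfc9_mtc.Interface
import Pool.Agent.Work.MP_2176bb_mtc.B_LOW

/-!
# Block FNC (helper87)
-/

set_option autoImplicit false

namespace Pool.Mtc

theorem FNC_main (hLOW : S_LOW) : S_FNC := by
  have hmono : StrictMono (Nat.nth Nat.Prime) := Nat.nth_strictMono Nat.infinite_setOf_prime
  have hp : ∀ k, (Nat.nth Nat.Prime k).Prime := fun k =>
    Nat.nth_mem_of_infinite Nat.infinite_setOf_prime k
  have h2 : ∀ k, k + 2 ≤ Nat.nth Nat.Prime k := fun k => Nat.add_two_le_nth_prime k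
  have hstep : ∀ k, 1 ≤ k → Nat.nth Nat.Prime k + 2 ≤ Nat.nth Nat.Prime (k + 1) := by
    intro k hk
    have a1 : Nat.nth Nat.Prime k < Nat.nth Nat.Prime (k + 1) := hmono (Nat.lt_succ_self k)
    obtain ⟨u, hu⟩ := (hp k).odd_of_ne_two (by have := h2 k; omega)
    obtain ⟨v, hv⟩ := (hp (k + 1)).odd_of_ne_two (by have := h2 (k + 1); omega)
    omega
  have hdiff : ∀ j a, 2 ≤ a → Nat.nth Nat.Prime (a - 1) + 2 * j ≤ Nat.nth Nat.Prime (a - 1 + j) := by
    intro j a ha
    induction j with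
    | zero => simp
    | succ j ih =>
      have h3 := hstep (a - 1 + j) (by omega)
      rw [show a - 1 + (j + 1) = a - 1 + j + 1 by omega]
      omega
  refine ⟨?_, ?_, ?_⟩
  · intro a b ha hab
    have h3 := hdiff (b - a) a ha
    rw [show a - 1 + (b - a) = b - 1 by omega] at h3
    have h4 := h2 (a - 1)
    unfold fq
    omega
  · unfold fq
    rw [show 2 - 1 = 1 from rfl, Nat.nth_prime_one_eq_three]
  · obtain ⟨x0, hx0, hl⟩ := hLOW
    refine ⟨⌈max x0 (Real.exp 6)⌉₊, fun y hy => ?_⟩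
    have hy1 : max x0 (Real.exp 6) ≤ (y : ℝ) := Nat.ceil_le.1 hy
    have hyx : x0 ≤ (y : ℝ) := (le_max_left _ _).trans hy1
    have hye : Real.exp 6 ≤ (y : ℝ) := (le_max_right _ _).trans hy1
    have hy0 : (0 : ℝ) < y := lt_of_lt_of_le (Real.exp_pos 6) hye
    obtain ⟨L, hL⟩ : ∃ L : ℝ, L = Real.log y := ⟨_, rfl⟩
    have hL6 : 6 ≤ L := by
      rw [hL, Real.le_log_iff_exp_le hy0]
      exact hye
    have hL0 : 0 < L := by linarith
    obtain ⟨x, hx⟩ : ∃ x : ℝ, x = y * L ^ 2 := ⟨_, rfl⟩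
    have hyx2 : (y : ℝ) ≤ x := by
      rw [hx]
      nlinarith [mul_le_mul_of_nonneg_left (show (1 : ℝ) ≤ L ^ 2 by nlinarith) hy0.le]
    have hx3 : x0 ≤ x := hyx.trans hyx2
    have hlog : Real.log x ≤ 3 * L := by
      rw [hx, Real.log_mul hy0.ne' (by positivity), Real.log_pow, ← hL]
      have := Real.log_le_self hL0.le
      push_cast
      linarith
    have hxp : 0 < x := lt_of_lt_of_le hy0 hyx2
    have hlx : 0 < Real.log x := Real.log_pos (by
      have : (1 : ℝ) < Real.exp 6 := by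
        have := Real.add_one_lt_exp (show (6 : ℝ) ≠ 0 by norm_num)
        linarith
      linarith)
    have h3 : (y : ℝ) ≤ x / (2 * Real.log x) := by
      rw [le_div_iff₀ (by positivity)]
      calc (y : ℝ) * (2 * Real.log x) ≤ y * (2 * (3 * L)) := by gcongr
        _ ≤ x := by
          rw [hx]
          nlinarith [mul_nonneg hy0.le (mul_nonneg hL0.le (sub_nonneg.2 hL6))]
    have h4 : (y : ℝ) ≤ pc x := h3.trans (hl x hx3).1
    have h5 : y ≤ Nat.primeCounting ⌊x⌋₊ := by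
      unfold pc at h4
      exact_mod_cast h4
    have hyN : 0 < y := by exact_mod_cast hy0
    have h6 : Nat.nth Nat.Prime (y - 1) < ⌊x⌋₊ + 1 := by
      apply Nat.nth_lt_of_lt_count
      have h7 : Nat.primeCounting ⌊x⌋₊ = Nat.count Nat.Prime (⌊x⌋₊ + 1) := rfl
      omega
    have h8 : fq y ≤ ⌊x⌋₊ := by
      unfold fq
      have := h2 (y - 1)
      omega
    calc (fq y : ℝ) ≤ (⌊x⌋₊ : ℝ) := by exact_mod_cast h8
      _ ≤ x := Nat.floor_le hxp.le
      _ = y * (Real.log y) ^ 2 := by rw [hx, hL]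

theorem p_FNC : S_FNC := FNC_main p_LOW

end Pool.Mtc
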