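import Pool.Agent.Work.MP_e7bfc9_mtc.Interface

/-!
# Block IND: induction on the length of the chain
-/

set_option autoImplicit false

open Finset MeasureTheory

namespace Pool.Mtc

theorem IND_meas (hMSB : S_MSB) (m : ℕ) (K : ℕ → Prop) (y : ℕ → ℕ) :
    MeasurableSet {s : Fin m → ℝ × ℝ | (∀ i, 0 < (s i).1 ∧ 0 < (s i).2) →
      {k | K k ∧ ChainP m s (y k)}.Infinite} := by
  have h1 : MeasurableSet {s : Fin m → ℝ × ℝ | ∀ i, 0 < (s i).1 ∧ 0 < (s i).2} := by
    have e : {s : Fin m → ℝ × ℝ | ∀ i, 0 < (s i).1 ∧ 0 < (s i).2} =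
        ⋂ i : Fin m, ({s | 0 < (s i).1} ∩ {s | 0 < (s i).2}) := by
      ext s
      simp
    rw [e]
    refine MeasurableSet.iInter fun i => ?_
    exact (measurableSet_lt measurable_const (measurable_pi_apply i).fst).inter
      (measurableSet_lt measurable_const (measurable_pi_apply i).snd)
  have h2 : MeasurableSet {s : Fin m → ℝ × ℝ | {k | K k ∧ ChainP m s (y k)}.Infinite} := by
    have e : {s : Fin m → ℝ × ℝ | {k | K k ∧ ChainP m s (y k)}.Infinite} =
        ⋂ N : ℕ, ⋃ k : ℕ, ⋃ (_ : N ≤ k ∧ K k), {s | ChainP m s (y k)} := by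
      ext s
      simp only [Set.mem_iInter, Set.mem_iUnion]
      constructor
      · intro h N
        obtain ⟨k, hk, hN⟩ := Set.Infinite.exists_gt h N
        exact ⟨k, ⟨hN.le, hk.1⟩, hk.2⟩
      · intro h
        refine Set.infinite_of_forall_exists_gt fun N => ?_
        obtain ⟨k, ⟨h1, h2⟩, h3⟩ := h (N + 1)
        exact ⟨k, ⟨h2, h3⟩, by omega⟩
    rw [e]
    exact MeasurableSet.iInter fun N => MeasurableSet.iUnion fun k =>
      MeasurableSet.iUnion fun _ => hMSB m (y k)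
  have e : {s : Fin m → ℝ × ℝ | (∀ i, 0 < (s i).1 ∧ 0 < (s i).2) →
      {k | K k ∧ ChainP m s (y k)}.Infinite} =
      {s : Fin m → ℝ × ℝ | ∀ i, 0 < (s i).1 ∧ 0 < (s i).2}ᶜ ∪
        {s : Fin m → ℝ × ℝ | {k | K k ∧ ChainP m s (y k)}.Infinite} := by
    ext s
    constructor
    · intro h
      by_cases hp : ∀ i, 0 < (s i).1 ∧ 0 < (s i).2
      · exact Or.inr (h hp)
      · exact Or.inl hp
    · rintro (h | h) hp
      · exact absurd hp h
      · exact h
  rw [e]
  exact h1.compl.union h2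

theorem IND_zero (K : ℕ → Prop) (z : ℕ → ℕ) (hH : Hyp K z) : {k | K k}.Infinite := by
  classical
  obtain ⟨C, B, J, c, m, M0, lam, hc, hm, hl, hl2, H⟩ := hH
  refine Set.infinite_of_forall_exists_gt fun N => ?_
  obtain ⟨j, hjJ, hjN, hj1⟩ : ∃ j : ℕ, J ≤ j ∧ N ≤ j ∧ 1 ≤ j :=
    ⟨J + N + 1, by omega, by omega, by omega⟩
  have h1 := (H j hjJ).1
  have hj0 : (0 : ℝ) < j := by exact_mod_cast hj1
  have h2 : (0 : ℝ) < ((win K 2 j).card : ℝ) := lt_of_lt_of_le (by positivity) h1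
  have h3 : 0 < (win K 2 j).card := by exact_mod_cast h2
  obtain ⟨k, hk⟩ := Finset.card_pos.1 h3
  unfold win at hk
  obtain ⟨hk1, hk2⟩ := Finset.mem_filter.1 hk
  have h4 := (Finset.mem_Ioc.1 hk1).1
  have h5 : ((2 : ℝ) ^ j) = ((2 ^ j : ℕ) : ℝ) := by push_cast; rfl
  rw [h5, Nat.floor_natCast] at h4
  have h6 : j < 2 ^ j := Nat.lt_two_pow_self
  exact ⟨k, hk2, by omega⟩

theorem p_IND (hSTP : S_STP) (hMSB : S_MSB) : S_IND := by
  intro m
  induction m with
  | zero =>
    intro K y hH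
    refine Filter.Eventually.of_forall fun s _ => ?_
    have h := IND_zero K _ hH
    have e : {k | K k ∧ ChainP 0 s (y k)} = {k | K k} := by
      ext k
      exact ⟨fun h => h.1, fun h => ⟨h, trivial⟩⟩
    rw [e]
    exact h
  | succ m ih =>
    intro K y hH
    have h1 := hSTP K (fun k => fq (y k)) hH
    have h2 : ∀ᵐ q : ℝ × ℝ, ∀ᵐ s' : Fin m → ℝ × ℝ, (0 < q.1 ∧ 0 < q.2) →
        (∀ i, 0 < (s' i).1 ∧ 0 < (s' i).2) →
        {k | (K k ∧ (nx q (fq (y k))).Prime) ∧
          ChainP m s' (nx q (fq (y k)))}.Infinite := by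
      filter_upwards [h1] with q hq
      by_cases hpos : 0 < q.1 ∧ 0 < q.2
      · have h3 := ih (fun k => K k ∧ (nx q (fq (y k))).Prime) (fun k => nx q (fq (y k)))
          (hq hpos.1 hpos.2)
        filter_upwards [h3] with s' hs' _ hp
        exact hs' hp
      · exact Filter.Eventually.of_forall fun s' h => absurd h hpos
    have hms := IND_meas hMSB (m + 1) K y
    obtain ⟨A, hA⟩ : ∃ A : Set (Fin (m + 1) → ℝ × ℝ), A = {s : Fin (m + 1) → ℝ × ℝ |
      (∀ i, 0 < (s i).1 ∧ 0 < (s i).2) → {k | K k ∧ ChainP (m + 1) s (y k)}.Infinite} :=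
      ⟨_, rfl⟩
    rw [← hA] at hms
    let e := MeasurableEquiv.piFinSuccAbove (fun _ : Fin (m + 1) => ℝ × ℝ) 0
    have hmp : MeasurePreserving e :=
      volume_preserving_piFinSuccAbove (fun _ : Fin (m + 1) => ℝ × ℝ) 0
    have hA' : MeasurableSet (e.symm ⁻¹' A) := e.symm.measurable hms
    have h4 : ∀ᵐ p : (ℝ × ℝ) × (Fin m → ℝ × ℝ) ∂((volume : Measure (ℝ × ℝ)).prod
        (volume : Measure (Fin m → ℝ × ℝ))), p ∈ e.symm ⁻¹' A := by
      rw [Measure.ae_prod_mem_iff_ae_ae_mem hA']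
      filter_upwards [h2] with q hq
      filter_upwards [hq] with s' hs'
      show e.symm (q, s') ∈ A
      have hs0 : e.symm (q, s') 0 = q := by
        simp [e, MeasurableEquiv.piFinSuccAbove_symm_apply]
      have hsS : ∀ i : Fin m, e.symm (q, s') i.succ = s' i := by
        intro i
        simp [e, MeasurableEquiv.piFinSuccAbove_symm_apply]
      obtain ⟨s, hs⟩ : ∃ s, s = e.symm (q, s') := ⟨_, rfl⟩
      rw [← hs] at hs0 hsS ⊢
      rw [hA]
      intro hpos
      have hq0 := hpos 0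
      rw [hs0] at hq0
      have h5 := hs' hq0 (fun i => by
        rw [← hsS i]
        exact hpos i.succ)
      refine h5.mono fun k hk => ?_
      obtain ⟨⟨hk1, hk2⟩, hk3⟩ := hk
      refine ⟨hk1, ?_⟩
      show (nx (s 0) (fq (y k))).Prime ∧ ChainP m (fun i => s i.succ) (nx (s 0) (fq (y k)))
      rw [hs0]
      refine ⟨hk2, ?_⟩
      have h6 : (fun i : Fin m => s i.succ) = s' := funext hsS
      rw [h6]
      exact hk3
    have h5 := hmp.quasiMeasurePreserving.ae h4
    filter_upwards [h5] with s hs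
    have h7 : e.symm (e s) ∈ A := hs
    rw [MeasurableEquiv.symm_apply_apply, hA] at h7
    exact h7

end Pool.Mtc
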