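import Pool.Agent.Work.MP_e7bfc9_mtc.Interface

/-! Block ME1 (helper9). -/

set_option autoImplicit false

open Finset MeasureTheory

namespace Pool.Mtc

theorem p_ME1 : S_ME1 := by
  refine ⟨?_, ?_⟩
  · have h1 : Measurable fun n : ℕ => if n.Prime then (1 : ℝ) else 0 :=
      measurable_from_top
    exact h1.comp (Nat.measurable_floor.comp Real.measurable_exp)
  · intro v
    unfold G1
    split_ifs
    · exact ⟨zero_le_one, le_rfl⟩
    · exact ⟨le_rfl, zero_le_one⟩

end Pool.Mtc
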