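import Pool.Agent.Work.MP_e7bfc9_mtc.Interface

/-! Block MSB of MP_e7bfc9_nt: measurability of the set of parameters of a prime chain (helper12). -/

set_option autoImplicit false

open Finset MeasureTheory

namespace Pool.Mtc

theorem MSB_nx (z : ℕ) : Measurable (fun q : ℝ × ℝ => nx q z) := by
  unfold nx
  exact Nat.measurable_floor.comp (measurable_fst.mul (measurable_const.pow measurable_snd))

theorem p_MSB : S_MSB := by
  intro m
  induction m with
  | zero =>
    intro p
    have h : {s : Fin 0 → ℝ × ℝ | ChainP 0 s p} = Set.univ := by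
      ext s
      simp [ChainP]
    rw [h]
    exact MeasurableSet.univ
  | succ m ih =>
    intro p
    have h : {s : Fin (m + 1) → ℝ × ℝ | ChainP (m + 1) s p} =
        ⋃ y : ℕ, ⋃ _ : y.Prime, ((fun s : Fin (m + 1) → ℝ × ℝ => nx (s 0) (fq p)) ⁻¹' {y} ∩
          (fun s : Fin (m + 1) → ℝ × ℝ => fun i : Fin m => s i.succ) ⁻¹'
            {s : Fin m → ℝ × ℝ | ChainP m s y}) := by
      ext s
      simp only [Set.mem_setOf_eq, Set.mem_iUnion, Set.mem_inter_iff, Set.mem_preimage,
        Set.mem_singleton_iff, ChainP]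
      constructor
      · rintro ⟨h1, h2⟩
        exact ⟨_, h1, rfl, h2⟩
      · rintro ⟨y, hy, rfl, h2⟩
        exact ⟨hy, h2⟩
    rw [h]
    refine MeasurableSet.iUnion fun y => MeasurableSet.iUnion fun _ => MeasurableSet.inter ?_ ?_
    · exact ((MSB_nx (fq p)).comp (measurable_pi_apply 0)) (MeasurableSet.singleton y)
    · exact (measurable_pi_lambda _ fun i => measurable_pi_apply _) (ih y)

end Pool.Mtc
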