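import Pool.Agent.Work.MP_e7bfc9_mtc.Interface
import Pool.Agent.Work.MP_2176bb_mtc.B_PAIR
import Pool.Agent.Work.MP_2176bb_mtc.B_HAR
import Pool.Agent.Work.MP_2176bb_mtc.B_SQ

/-! SQZ: second moment with the phases `log (z k)`. -/

set_option autoImplicit false

open Finset MeasureTheory

namespace Pool.Mtc

theorem SQZ_near (K : Finset ℕ) (k : ℕ) (R : ℝ) (hR : 1 ≤ R) :
    ((K.filter (fun k' : ℕ => |(k : ℝ) - (k' : ℝ)| < R)).card : ℝ) ≤ 3 * R := by
  have h1 : K.filter (fun k' : ℕ => |(k : ℝ) - (k' : ℝ)| < R) ⊆ Finset.Icc (k - ⌊R⌋₊) (k + ⌊R⌋₊) := by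
    intro k' hk'
    have h2 := (Finset.mem_filter.1 hk').2
    rw [abs_lt] at h2
    rw [Finset.mem_Icc]
    constructor
    · rcases le_total k k' with h | h
      · omega
      · have h3 : ((k - k' : ℕ) : ℝ) ≤ R := by
          rw [Nat.cast_sub h]
          linarith
        have h4 := Nat.le_floor h3
        omega
    · rcases le_total k k' with h | h
      · have h3 : ((k' - k : ℕ) : ℝ) ≤ R := by
          rw [Nat.cast_sub h]
          linarith
        have h4 := Nat.le_floor h3
        omega
      · omega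
  have h2 := Finset.card_le_card h1
  rw [Nat.card_Icc] at h2
  have h3 : (K.filter (fun k' : ℕ => |(k : ℝ) - (k' : ℝ)| < R)).card ≤ 2 * ⌊R⌋₊ + 1 := by omega
  have h4 : ((K.filter (fun k' : ℕ => |(k : ℝ) - (k' : ℝ)| < R)).card : ℝ) ≤ 2 * (⌊R⌋₊ : ℝ) + 1 := by exact_mod_cast h3
  have h5 := Nat.floor_le (show (0 : ℝ) ≤ R by linarith)
  linarith

theorem SQZ_far (K : Finset ℕ) (W : ℝ) (hW : 1 ≤ W) (hK : ∀ k ∈ K, W < (k : ℝ) ∧ (k : ℝ) ≤ 2 * W)
    (k : ℕ) (hk : k ∈ K) (S : Finset ℕ) (hS : ∀ k' ∈ S, k' ∈ K ∧ k' ≠ k) :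
    ∑ k' ∈ S, 1 / |(k : ℝ) - k'| ≤ 2 * (1 + Real.log W) := by
  obtain ⟨hk1, hk2⟩ := hK k hk
  have hH : (harmonic ⌊W⌋₊ : ℝ) ≤ 1 + Real.log W := harmonic_floor_le_one_add_log W hW
  have hsplit : ∑ k' ∈ S, 1 / |(k : ℝ) - k'| =
      ∑ k' ∈ S.filter (fun x => x < k), 1 / |(k : ℝ) - k'| +
      ∑ k' ∈ S.filter (fun x => ¬ x < k), 1 / |(k : ℝ) - k'| :=
    (Finset.sum_filter_add_sum_filter_not _ _ _).symm
  have hA : ∑ k' ∈ S.filter (fun x => x < k), 1 / |(k : ℝ) - k'| ≤ 1 + Real.log W := by
    calc ∑ k' ∈ S.filter (fun x => x < k), 1 / |(k : ℝ) - k'|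
        = ∑ k' ∈ S.filter (fun x => x < k), (1 / ((k - k' : ℕ) : ℝ)) := by
          refine Finset.sum_congr rfl fun k' hk' => ?_
          have hlt := (Finset.mem_filter.1 hk').2
          have hlt' : (k' : ℝ) < k := by exact_mod_cast hlt
          rw [Nat.cast_sub hlt.le, abs_of_pos (by linarith)]
      _ ≤ 1 + Real.log W := by
          refine le_trans (HAR_sum ⌊W⌋₊ _ (fun k' => k - k') ?_ ?_ ?_) hH
          · intro x hx y hy hxy
            simp only [Finset.coe_filter, Set.mem_ofPred_eq] at hx hy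
            have hx2 := hx.2
            have hy2 := hy.2
            simp only at hxy
            omega
          · intro x hx
            have := (Finset.mem_filter.1 hx).2
            omega
          · intro x hx
            obtain ⟨hxS, hlt⟩ := Finset.mem_filter.1 hx
            obtain ⟨h1, h2⟩ := hK x (hS x hxS).1
            apply Nat.le_floor
            rw [Nat.cast_sub hlt.le]
            linarith
  have hB : ∑ k' ∈ S.filter (fun x => ¬ x < k), 1 / |(k : ℝ) - k'| ≤ 1 + Real.log W := by
    calc ∑ k' ∈ S.filter (fun x => ¬ x < k), 1 / |(k : ℝ) - k'|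
        = ∑ k' ∈ S.filter (fun x => ¬ x < k), (1 / ((k' - k : ℕ) : ℝ)) := by
          refine Finset.sum_congr rfl fun k' hk' => ?_
          obtain ⟨hxS, hlt⟩ := Finset.mem_filter.1 hk'
          have hlt0 : k < k' := by
            have := (hS k' hxS).2
            omega
          have hlt' : (k : ℝ) < k' := by exact_mod_cast hlt0
          rw [Nat.cast_sub hlt0.le, abs_sub_comm, abs_of_pos (by linarith)]
      _ ≤ 1 + Real.log W := by
          refine le_trans (HAR_sum ⌊W⌋₊ _ (fun k' => k' - k) ?_ ?_ ?_) hH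
          · intro x hx y hy hxy
            simp only [Finset.coe_filter, Set.mem_ofPred_eq] at hx hy
            have hx2 := hx.2
            have hy2 := hy.2
            simp only at hxy
            omega
          · intro x hx
            obtain ⟨hxS, hlt⟩ := Finset.mem_filter.1 hx
            have := (hS x hxS).2
            omega
          · intro x hx
            obtain ⟨hxS, hlt⟩ := Finset.mem_filter.1 hx
            obtain ⟨h1, h2⟩ := hK x (hS x hxS).1
            apply Nat.le_floor
            have hle : k ≤ x := by omega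
            rw [Nat.cast_sub hle]
            linarith
  rw [hsplit]
  linarith

theorem p_SQZ : S_SQZ := by
  intro g hg hg1 η hη hprim M K z W R T L hM hW hR hT hK hL hsep
  obtain ⟨hv1, hv2⟩ := SQ_vol M hM
  have hmeas : ∀ l : ℝ, Measurable (fun q : ℝ × ℝ => g (q.1 + q.2 * l)) := fun l =>
    hg.comp (measurable_fst.add (measurable_snd.mul_const l))
  have hbd : ∀ (l l' : ℝ) (q : ℝ × ℝ), ‖g (q.1 + q.2 * l) * g (q.1 + q.2 * l')‖ ≤ 1 := by
    intro l l' q
    rw [Real.norm_eq_abs, abs_mul]
    have h1 := hg1 (q.1 + q.2 * l)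
    have h2 := hg1 (q.1 + q.2 * l')
    have h3 := abs_nonneg (g (q.1 + q.2 * l))
    have h4 := abs_nonneg (g (q.1 + q.2 * l'))
    nlinarith
  have hint : ∀ l l' : ℝ, Integrable (fun q : ℝ × ℝ => g (q.1 + q.2 * l) * g (q.1 + q.2 * l'))
      (volume.restrict (box M)) := by
    intro l l'
    exact Measure.integrableOn_of_bounded (M := 1) hv1.ne ((hmeas l).mul (hmeas l')).aestronglyMeasurable
      (Filter.Eventually.of_forall (hbd l l'))
  have e1 : ∫ q in box M, (∑ k ∈ K, g (q.1 + q.2 * Real.log (z k))) ^ 2 =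
      ∑ k ∈ K, ∑ k' ∈ K,
        ∫ q in box M, g (q.1 + q.2 * Real.log (z k)) * g (q.1 + q.2 * Real.log (z k')) := by
    have h : ∀ q : ℝ × ℝ, (∑ k ∈ K, g (q.1 + q.2 * Real.log (z k))) ^ 2 =
        ∑ k ∈ K, ∑ k' ∈ K, g (q.1 + q.2 * Real.log (z k)) * g (q.1 + q.2 * Real.log (z k')) := by
      intro q
      rw [sq, Finset.sum_mul_sum]
    simp_rw [h]
    rw [integral_finsetSum _ (fun k _ => integrable_finsetSum _ (fun k' _ => hint _ _))]
    refine Finset.sum_congr rfl fun k _ => ?_
    rw [integral_finsetSum _ (fun k' _ => hint _ _)]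
  rw [e1]
  have hlogW : 0 ≤ Real.log W := Real.log_nonneg hW
  have key : ∀ k ∈ K, ∑ k' ∈ K,
      ∫ q in box M, g (q.1 + q.2 * Real.log (z k)) * g (q.1 + q.2 * Real.log (z k')) ≤
      6 * M * M * R + (2 * M + M * L) * η * (2 * T * (1 + Real.log W)) := by
    intro k hk
    have hL0 : 0 ≤ L := (hL k hk).1.trans (hL k hk).2
    have hc : 0 ≤ (2 * M + M * L) * η := by
      have : 0 ≤ 2 * M + M * L := by positivity
      positivity
    rw [← Finset.sum_filter_add_sum_filter_not K (fun k' : ℕ => |(k : ℝ) - (k' : ℝ)| < R)]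
    refine add_le_add ?_ ?_
    · calc ∑ k' ∈ K.filter (fun k' : ℕ => |(k : ℝ) - (k' : ℝ)| < R),
            ∫ q in box M, g (q.1 + q.2 * Real.log (z k)) * g (q.1 + q.2 * Real.log (z k'))
          ≤ ∑ k' ∈ K.filter (fun k' : ℕ => |(k : ℝ) - (k' : ℝ)| < R), 2 * M * M := by
            refine Finset.sum_le_sum fun k' _ => ?_
            have h1 := norm_setIntegral_le_of_norm_le_const (μ := (volume : Measure (ℝ × ℝ))) (s := box M)
              (f := fun q : ℝ × ℝ => g (q.1 + q.2 * Real.log (z k)) * g (q.1 + q.2 * Real.log (z k')))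
              (C := 1) hv1 (fun q _ => hbd _ _ q)
            rw [one_mul, Real.norm_eq_abs] at h1
            exact le_trans (le_abs_self _) (le_trans h1 hv2)
        _ = ((K.filter (fun k' : ℕ => |(k : ℝ) - (k' : ℝ)| < R)).card : ℝ) * (2 * M * M) := by
            rw [Finset.sum_const, nsmul_eq_mul]
        _ ≤ 3 * R * (2 * M * M) := mul_le_mul_of_nonneg_right (SQZ_near K k R hR) (by positivity)
        _ = 6 * M * M * R := by ring
    · calc ∑ k' ∈ K.filter (fun k' : ℕ => ¬ |(k : ℝ) - (k' : ℝ)| < R),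
            ∫ q in box M, g (q.1 + q.2 * Real.log (z k)) * g (q.1 + q.2 * Real.log (z k'))
          ≤ ∑ k' ∈ K.filter (fun k' : ℕ => ¬ |(k : ℝ) - (k' : ℝ)| < R),
              (2 * M + M * L) * η * (T * (1 / |(k : ℝ) - k'|)) := by
            refine Finset.sum_le_sum fun k' hk' => ?_
            obtain ⟨hk'K, hnear⟩ := Finset.mem_filter.1 hk'
            rw [not_lt] at hnear
            have hdist : 0 < |(k : ℝ) - k'| := by linarith
            have hgap : |(k : ℝ) - k'| / T ≤ |Real.log (z k) - Real.log (z k')| := by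
              rcases le_total ((k' : ℝ)) k with h | h
              · have h0 : |(k : ℝ) - k'| = (k : ℝ) - k' := abs_of_nonneg (by linarith)
                rw [h0] at hnear ⊢
                exact (hsep k hk k' hk'K hnear).trans (le_abs_self _)
              · have h0 : |(k : ℝ) - k'| = (k' : ℝ) - k := by
                  rw [abs_sub_comm]
                  exact abs_of_nonneg (by linarith)
                rw [h0] at hnear ⊢
                rw [abs_sub_comm]
                exact (hsep k' hk'K k hk hnear).trans (le_abs_self _)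
            have hpos : 0 < |(k : ℝ) - k'| / T := div_pos hdist hT
            have hne : Real.log (z k) ≠ Real.log (z k') := by
              intro h
              rw [h, sub_self, abs_zero] at hgap
              linarith
            have h1 := p_PAIR g hg hg1 η hη hprim M (Real.log (z k)) (Real.log (z k')) L hM
              (hL k hk).1 (hL k hk).2 (hL k' hk'K).1 hne
            refine le_trans (le_abs_self _) (le_trans h1 ?_)
            calc (2 * M + M * L) * η / |Real.log (z k) - Real.log (z k')|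
                ≤ (2 * M + M * L) * η / (|(k : ℝ) - k'| / T) :=
                  div_le_div_of_nonneg_left hc hpos hgap
              _ = (2 * M + M * L) * η * (T * (1 / |(k : ℝ) - k'|)) := by
                  field_simp
        _ = (2 * M + M * L) * η * (T * ∑ k' ∈ K.filter (fun k' : ℕ => ¬ |(k : ℝ) - (k' : ℝ)| < R),
              1 / |(k : ℝ) - k'|) := by
            rw [Finset.mul_sum, Finset.mul_sum]
        _ ≤ (2 * M + M * L) * η * (T * (2 * (1 + Real.log W))) := by
            refine mul_le_mul_of_nonneg_left (mul_le_mul_of_nonneg_left ?_ hT.le) hc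
            refine SQZ_far K W hW hK k hk _ fun k' hk' => ?_
            obtain ⟨hk'K, hnear⟩ := Finset.mem_filter.1 hk'
            refine ⟨hk'K, fun h => hnear ?_⟩
            rw [h, sub_self, abs_zero]
            linarith
        _ = (2 * M + M * L) * η * (2 * T * (1 + Real.log W)) := by ring
  calc ∑ k ∈ K, ∑ k' ∈ K,
        ∫ q in box M, g (q.1 + q.2 * Real.log (z k)) * g (q.1 + q.2 * Real.log (z k'))
      ≤ ∑ k ∈ K, (6 * M * M * R + (2 * M + M * L) * η * (2 * T * (1 + Real.log W))) :=
        Finset.sum_le_sum key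
    _ = _ := by rw [Finset.sum_const, nsmul_eq_mul]

end Pool.Mtc
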