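import Pool.Agent.Work.MP_e7bfc9_mtc.Interface

/-! # Block STP -/

set_option autoImplicit false

open Finset MeasureTheory

namespace Pool.Mtc

theorem STP_sub (K P : ℕ → Prop) (ρ : ℝ) (j : ℕ) : win (fun k => K k ∧ P k) ρ j ⊆ win K ρ j := by
  intro k hk
  simp only [win, Finset.mem_filter] at hk ⊢
  exact ⟨hk.1, hk.2.1⟩

theorem p_STP (hDNS : S_DNS) (hSPS : S_SPS) : S_STP := by
  intro K z hyp
  filter_upwards [hDNS K z hyp] with q hq h1 h2
  obtain ⟨c', hc', C', J1, hd⟩ := hq h1 h2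
  obtain ⟨B', J2, m', M', lam', hm', hl1, hl2, hs⟩ := hSPS K z hyp q h1 h2
  refine ⟨C', B', max J1 J2, c', m', M', lam', hc', hm', hl1, hl2, fun j hj => ⟨hd j (le_trans (le_max_left _ _) hj), ?_, ?_⟩⟩
  · intro k hk
    exact (hs j (le_trans (le_max_right _ _) hj)).1 k (STP_sub _ _ _ _ hk)
  · intro k hk k' hk' h
    exact (hs j (le_trans (le_max_right _ _) hj)).2 k (STP_sub _ _ _ _ hk) k' (STP_sub _ _ _ _ hk') h

end Pool.Mtc
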