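import Pool.Agent.Work.MP_e7bfc9_mtc.Interface

/-! Block WINZ (helper94) -/

set_option autoImplicit false

open Finset MeasureTheory

namespace Pool.Mtc

theorem WINZ_core (c c1 M M1 x W R L L1 N : ℝ) (C B : ℕ) (hc : 0 < c) (hc1 : 0 < c1) (hM : 1 ≤ M)
    (hM1 : 0 ≤ M1) (hx : 1 ≤ x) (hW0 : 0 < W) (hR : R * x ^ (C + 6) ≤ W)
    (hN : c * W / x ^ C ≤ N) (hL : L ≤ M1 * x) (h10 : 0 ≤ L1) (h1 : L1 ≤ x) :
    4 * (6 * M * M * R + (2 * M + M * L) * (1 / x ^ (C + B + 8)) *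
      (2 * (W * x ^ B) * (1 + L1))) / ((c1 / x ^ 2) ^ 2 * N) ≤
    ((24 * M ^ 2 + 16 * M * (2 + M1)) / (c1 ^ 2 * c)) / x ^ 2 := by
  have hx0 : 0 < x := by linarith
  have hM0 : 0 < M := by linarith
  have hN0 : 0 < N := lt_of_lt_of_le (by positivity) hN
  rw [div_le_iff₀ (by positivity)]
  have hR' : R ≤ W / x ^ (C + 6) := by
    rw [le_div_iff₀ (by positivity)]
    exact hR
  have hnum1 : (2 * M + M * L) * (1 / x ^ (C + B + 8)) * (2 * (W * x ^ B) * (1 + L1)) ≤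
      (M * (2 + M1) * x) * (1 / x ^ (C + B + 8)) * (4 * (W * x ^ B) * x) := by
    have ha : 2 * M + M * L ≤ M * (2 + M1) * x := by nlinarith
    have hb : 2 * (W * x ^ B) * (1 + L1) ≤ 4 * (W * x ^ B) * x := by
      have hz : 0 < W * x ^ B := by positivity
      nlinarith
    have hp : (0 : ℝ) ≤ 1 / x ^ (C + B + 8) := by positivity
    apply mul_le_mul (mul_le_mul_of_nonneg_right ha hp) hb (by positivity) (by positivity)
  have hnum2 : (M * (2 + M1) * x) * (1 / x ^ (C + B + 8)) * (4 * (W * x ^ B) * x) =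
      4 * M * (2 + M1) * (W / x ^ (C + 6)) := by
    have : x ^ (C + B + 8) = x ^ (C + 6) * x ^ B * x ^ 2 := by ring
    rw [this]
    field_simp
  have hnum3 : 6 * M * M * R ≤ 6 * M * M * (W / x ^ (C + 6)) :=
    mul_le_mul_of_nonneg_left hR' (by positivity)
  have hden : (24 * M ^ 2 + 16 * M * (2 + M1)) / (c1 ^ 2 * c) / x ^ 2 *
      ((c1 / x ^ 2) ^ 2 * (c * W / x ^ C)) =
      (24 * M ^ 2 + 16 * M * (2 + M1)) * (W / x ^ (C + 6)) := by
    have : x ^ (C + 6) = x ^ C * x ^ 6 := by ring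
    rw [this]
    field_simp
  have hden2 : (24 * M ^ 2 + 16 * M * (2 + M1)) / (c1 ^ 2 * c) / x ^ 2 *
      ((c1 / x ^ 2) ^ 2 * (c * W / x ^ C)) ≤
      (24 * M ^ 2 + 16 * M * (2 + M1)) / (c1 ^ 2 * c) / x ^ 2 * ((c1 / x ^ 2) ^ 2 * N) := by
    apply mul_le_mul_of_nonneg_left _ (by positivity)
    exact mul_le_mul_of_nonneg_left hN (by positivity)
  have hfin : 4 * (6 * M * M * (W / x ^ (C + 6)) + 4 * M * (2 + M1) * (W / x ^ (C + 6))) =
      (24 * M ^ 2 + 16 * M * (2 + M1)) * (W / x ^ (C + 6)) := by ring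
  linarith

theorem WINZ_mem {K : ℕ → Prop} {j k : ℕ} (hk : k ∈ win K 2 j) :
    (2 : ℝ) ^ j < (k : ℝ) ∧ (k : ℝ) ≤ 2 * 2 ^ j := by
  classical
  unfold win at hk
  rw [mem_filter, mem_Ioc] at hk
  have h1 : (2 : ℝ) ^ j < (k : ℝ) := Nat.lt_of_floor_lt hk.1.1
  have h2 : (k : ℝ) ≤ (2 : ℝ) ^ (j + 1) :=
    (Nat.cast_le.2 hk.1.2).trans (Nat.floor_le (by positivity))
  refine ⟨h1, h2.trans (le_of_eq ?_)⟩
  ring

theorem p_WINZ (hDE1 : S_DE1) (hBADZ : S_BADZ) : S_WINZ := by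
  intro K z hH M hM
  obtain ⟨C, B, J, c, m, M0, lam, hc, hm, hlam, hlam2, hyp⟩ := hH
  obtain ⟨v0, hv0, hden⟩ := hDE1 (C + B + 9)
  have hMp : 0 < M := by linarith
  obtain ⟨M1, hM1d⟩ : ∃ M1 : ℝ, M1 = |M0| := ⟨_, rfl⟩
  have hM1 : 0 ≤ M1 := by rw [hM1d]; exact abs_nonneg _
  have hM01 : M0 ≤ M1 := by rw [hM1d]; exact le_abs_self _
  obtain ⟨c2, hc2⟩ : ∃ c2 : ℝ, c2 = m / (2 * M) := ⟨_, rfl⟩
  have hc20 : 0 < c2 := by rw [hc2]; positivity
  obtain ⟨c1, hc1⟩ : ∃ c1 : ℝ, c1 = 1 / (256 * (M * (1 + M1)) ^ 2) := ⟨_, rfl⟩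
  have hc10 : 0 < c1 := by rw [hc1]; positivity
  have e1 : ∀ᶠ j : ℕ in Filter.atTop, (j : ℝ) ^ (C + 6) / lam ^ j < 1 :=
    (tendsto_pow_const_div_const_pow_of_one_lt (C + 6) hlam).eventually_lt_const one_pos
  have e2 : ∀ᶠ j : ℕ in Filter.atTop,
      max (max 1 (M / c2)) (max (v0 / c2) (1 / c2 ^ (C + B + 9))) ≤ (j : ℝ) :=
    tendsto_natCast_atTop_atTop.eventually_ge_atTop _
  obtain ⟨J', hJ'⟩ := Filter.eventually_atTop.1 ((e1.and e2).and (Filter.eventually_ge_atTop J))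
  refine ⟨(24 * M ^ 2 + 16 * M * (2 + M1)) / (c1 ^ 2 * c), c1, J', by positivity, hc10, ?_⟩
  intro j hj
  obtain ⟨⟨h1, h2⟩, h3⟩ := hJ' j hj
  obtain ⟨hcj, hsz, hsep⟩ := hyp j h3
  obtain ⟨x, hxd⟩ : ∃ x : ℝ, x = (j : ℝ) := ⟨_, rfl⟩
  rw [← hxd] at h1 h2 hcj
  have hx1 : 1 ≤ x := (le_max_left _ _).trans ((le_max_left _ _).trans h2)
  have hx2 : M / c2 ≤ x := (le_max_right _ _).trans ((le_max_left _ _).trans h2)
  have hx3 : v0 / c2 ≤ x := (le_max_left _ _).trans ((le_max_right _ _).trans h2)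
  have hx4 : 1 / c2 ^ (C + B + 9) ≤ x := (le_max_right _ _).trans ((le_max_right _ _).trans h2)
  rw [div_le_iff₀ hc20] at hx2 hx3
  rw [div_le_iff₀ (by positivity)] at hx4
  have hx0 : 0 < x := by linarith
  have hlam0 : 0 < lam := by linarith
  have hWpos : (0 : ℝ) < 2 ^ j := by positivity
  have hW1 : (1 : ℝ) ≤ 2 ^ j := one_le_pow₀ (by norm_num)
  have hlp : 0 < lam ^ j := by positivity
  have hR1 : 1 ≤ (2 / lam) ^ j := by
    apply one_le_pow₀
    rw [le_div_iff₀ hlam0]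
    linarith
  have hR : (2 / lam) ^ j * x ^ (C + 6) ≤ 2 ^ j := by
    rw [div_lt_one hlp] at h1
    rw [div_pow, div_mul_eq_mul_div, div_le_iff₀ hlp]
    exact mul_le_mul_of_nonneg_left h1.le hWpos.le
  have hcpos : (0 : ℝ) < ((win K 2 j).card : ℝ) := lt_of_lt_of_le (by positivity) hcj
  have hne : (win K 2 j).Nonempty := by
    rw [← card_pos]
    exact_mod_cast hcpos
  have hlW : Real.log (2 ^ j) = x * Real.log 2 := by rw [Real.log_pow, hxd]
  have hlW1 : Real.log (2 ^ j) ≤ x := by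
    rw [hlW]
    have := Real.log_two_lt_d9
    nlinarith
  have hlW0 : 0 ≤ Real.log (2 ^ j) := Real.log_nonneg hW1
  have hT : (0 : ℝ) < 2 ^ j * x ^ B := by positivity
  have hmean : ∀ q ∈ box M, ∀ k ∈ win K 2 j,
      c1 / x ^ 2 ≤ mean G1 (1 / x ^ (C + B + 8)) (q.1 + q.2 * Real.log (z k)) := by
    intro q hq k hk
    obtain ⟨hs1, hs2⟩ := hsz k hk
    rw [← hxd] at hs1 hs2
    obtain ⟨⟨hq1, hq2⟩, ⟨hq3, hq4⟩⟩ := hq
    have hs0 : 0 ≤ Real.log (z k) := le_trans (by positivity) hs1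
    have hs3 : Real.log (z k) ≤ M1 * x := hs2.trans (mul_le_mul_of_nonneg_right hM01 hx0.le)
    have hq30 : 0 < q.2 := lt_of_lt_of_le (by positivity) hq3
    obtain ⟨v, hv⟩ : ∃ v, v = q.1 + q.2 * Real.log (z k) := ⟨_, rfl⟩
    rw [← hv]
    have hvlow : c2 * x ≤ v := by
      have h6 : (1 / M) * (m * x) ≤ q.2 * Real.log (z k) :=
        mul_le_mul hq3 hs1 (by positivity) hq30.le
      have h7 : (1 / M) * (m * x) = 2 * (c2 * x) := by
        rw [hc2]
        field_simp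
      rw [h7] at h6
      rw [hv]
      nlinarith
    have hvup : v ≤ M * (1 + M1) * x := by
      have h6 : q.2 * Real.log (z k) ≤ M * (M1 * x) := mul_le_mul hq4 hs3 hs0 hMp.le
      rw [hv]
      nlinarith
    have hvpos : 0 < v := lt_of_lt_of_le (by positivity) hvlow
    have h8 : 1 / (256 * v ^ 2) ≤ mean G1 (1 / x ^ (C + B + 8)) v := by
      apply hden
      · linarith
      · positivity
      · rw [div_le_one (by positivity)]
        exact one_le_pow₀ hx1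
      · have h9 : (c2 * x) ^ (C + B + 9) ≤ v ^ (C + B + 9) :=
          pow_le_pow_left₀ (by positivity) hvlow _
        rw [one_div, inv_mul_eq_div, le_div_iff₀ (by positivity), one_mul]
        refine le_trans ?_ h9
        rw [mul_pow]
        have h10 : x ^ (C + B + 9) = x * x ^ (C + B + 8) := by ring
        rw [h10]
        have h11 : (0 : ℝ) ≤ x ^ (C + B + 8) := by positivity
        have h14 := mul_le_mul_of_nonneg_right hx4 h11
        rw [one_mul] at h14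
        exact h14.trans (le_of_eq (by ring))
    refine le_trans ?_ h8
    have h12 : v ^ 2 ≤ (M * (1 + M1) * x) ^ 2 := pow_le_pow_left₀ hvpos.le hvup 2
    have h15 : c1 / x ^ 2 = 1 / (256 * (M * (1 + M1) * x) ^ 2) := by
      rw [hc1]
      field_simp
    rw [h15]
    apply one_div_le_one_div_of_le (by positivity)
    exact mul_le_mul_of_nonneg_left h12 (by norm_num)
  have hbad := hBADZ M (win K 2 j) z (2 ^ j) ((2 / lam) ^ j) (2 ^ j * x ^ B) (M1 * x)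
    (1 / x ^ (C + B + 8)) (c1 / x ^ 2) hM hW1 hR1 hT (by positivity) (by positivity) hne
    (fun k hk => WINZ_mem hk)
    (fun k hk => by
      obtain ⟨hs1, hs2⟩ := hsz k hk
      rw [← hxd] at hs1 hs2
      exact ⟨le_trans (by positivity) hs1, hs2.trans (mul_le_mul_of_nonneg_right hM01 hx0.le)⟩)
    (fun k hk k' hk' hkk => by
      have := hsep k hk k' hk' hkk
      rw [← hxd] at this
      exact this)
    hmean
  rw [← hxd]
  refine hbad.trans (ENNReal.ofReal_le_ofReal ?_)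
  exact WINZ_core c c1 M M1 x (2 ^ j) _ _ _ _ C B hc hc10 hM hM1 hx1 hWpos hR hcj le_rfl hlW0 hlW1

end Pool.Mtc
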