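import Pool.Agent.Work.MP_e7bfc9_mtc.Interface
import Pool.Agent.Work.MP_e7bfc9_mtc.B_ME1
import Pool.Agent.Work.MP_e7bfc9_mtc.B_DE1
import Pool.Agent.Work.MP_e7bfc9_mtc.B_FNC
import Pool.Agent.Work.MP_e7bfc9_mtc.B_SQZ
import Pool.Agent.Work.MP_e7bfc9_mtc.B_BADZ
import Pool.Agent.Work.MP_e7bfc9_mtc.B_WINZ
import Pool.Agent.Work.MP_e7bfc9_mtc.B_AEZ
import Pool.Agent.Work.MP_e7bfc9_mtc.B_DNS
import Pool.Agent.Work.MP_e7bfc9_mtc.B_SPS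
import Pool.Agent.Work.MP_e7bfc9_mtc.B_STP
import Pool.Agent.Work.MP_e7bfc9_mtc.B_BAS
import Pool.Agent.Work.MP_e7bfc9_mtc.B_MSB
import Pool.Agent.Work.MP_e7bfc9_mtc.B_IND
import Pool.Agent.Work.MP_e7bfc9_mtc.B_CHN

set_option autoImplicit false

open Finset MeasureTheory

namespace Pool.Mtc

theorem all_STP : S_STP :=
  p_STP (p_DNS (p_AEZ (p_WINZ p_DE1 (p_BADZ p_SQZ p_ME1)))) (p_SPS p_FNC)

theorem all_CHN : S_CHN := p_CHN (p_IND all_STP p_MSB) (p_BAS p_FNC)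

end Pool.Mtc
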