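import Pool.Agent.Work.MP_e7bfc9_mtc.Interface

/-!
Block SPS: size and separation of the next term.
-/

set_option autoImplicit false

open Finset MeasureTheory

namespace Pool.Mtc

theorem SPS_exp {x : ℝ} (h0 : 0 ≤ x) (h1 : x ≤ 1) : x / 2 ≤ 1 - Real.exp (-x) := by
  have h2 : 1 + x ≤ Real.exp x := by linarith [Real.add_one_le_exp x]
  have h3 : Real.exp (-x) ≤ 1 / (1 + x) := by
    rw [Real.exp_neg, ← one_div]
    exact one_div_le_one_div_of_le (by linarith) h2
  have h4 : x / 2 ≤ 1 - 1 / (1 + x) := by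
    have h5 : 1 - 1 / (1 + x) = x / (1 + x) := by
      have : (1 + x) ≠ 0 := by linarith
      field_simp
      ring
    rw [h5]
    exact div_le_div_of_nonneg_left h0 (by linarith) (by linarith)
  linarith

theorem SPS_log {u v : ℝ} (hu : 0 < u) (hv : 0 < v) :
    (v - u) / v ≤ Real.log v - Real.log u := by
  have h := Real.log_le_sub_one_of_pos (div_pos hu hv)
  rw [Real.log_div hu.ne' hv.ne'] at h
  have h1 : (v - u) / v = 1 - u / v := by
    rw [sub_div, div_self hv.ne']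
  rw [h1]
  linarith

theorem SPS_one {t a m M0 : ℝ} {j z y0 : ℕ} (ht : 0 < t) (ha : 0 < a) (hm : 0 < m)
    (hj : 1 ≤ j) (hz : m * j ≤ Real.log z) (hz' : Real.log z ≤ M0 * j)
    (h3 : (y0 : ℝ) + 3 ≤ t * Real.exp (a * m / 2 * j))
    (y : ℕ) (hy : y = ⌊t * (z : ℝ) ^ a⌋₊) :
    t * (z : ℝ) ^ a = Real.exp (Real.log t + a * Real.log z) ∧
    t * (Real.exp (a * m / 2 * j) * Real.exp (a * m / 2 * j)) ≤ t * (z : ℝ) ^ a ∧
    (y : ℝ) ≤ t * (z : ℝ) ^ a ∧ t * (z : ℝ) ^ a < y + 1 ∧ y0 ≤ y ∧ 2 ≤ y ∧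
    Real.exp (a * m / 2 * j) ≤ y ∧ Real.log y ≤ (|Real.log t| + a * |M0| + 1) * j := by
  have hj' : (1 : ℝ) ≤ j := by exact_mod_cast hj
  have hmj : 0 < m * j := by positivity
  have hL : 0 < Real.log z := lt_of_lt_of_le hmj hz
  have hz0 : (0 : ℝ) < z := by
    rcases Nat.eq_zero_or_pos z with h | h
    · rw [h] at hL
      simp at hL
    · exact_mod_cast h
  have e1 : t * (z : ℝ) ^ a = Real.exp (Real.log t + a * Real.log z) := by
    rw [Real.exp_add, Real.exp_log ht, Real.rpow_def_of_pos hz0, mul_comm a]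
  have e2 : t * (Real.exp (a * m / 2 * j) * Real.exp (a * m / 2 * j)) ≤ t * (z : ℝ) ^ a := by
    rw [Real.rpow_def_of_pos hz0, ← Real.exp_add]
    refine mul_le_mul_of_nonneg_left (Real.exp_le_exp.mpr ?_) ht.le
    have := mul_le_mul_of_nonneg_left hz ha.le
    linarith
  have hX : 0 < t * (z : ℝ) ^ a := by positivity
  have e3 : (y : ℝ) ≤ t * (z : ℝ) ^ a := by
    rw [hy]
    exact Nat.floor_le hX.le
  have e4 : t * (z : ℝ) ^ a < y + 1 := by
    rw [hy]
    exact Nat.lt_floor_add_one _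
  have hw : 1 ≤ Real.exp (a * m / 2 * j) := Real.one_le_exp (by positivity)
  have hy0 : (0 : ℝ) ≤ y0 := Nat.cast_nonneg _
  have e5 : ((y0 : ℝ) + 3) * Real.exp (a * m / 2 * j) ≤ t * (z : ℝ) ^ a := by
    refine le_trans ?_ e2
    rw [← mul_assoc]
    exact mul_le_mul_of_nonneg_right h3 (by linarith)
  have e6 : ((y0 : ℝ) + 3) ≤ ((y0 : ℝ) + 3) * Real.exp (a * m / 2 * j) := by nlinarith
  have e7 : 3 * Real.exp (a * m / 2 * j) ≤ ((y0 : ℝ) + 3) * Real.exp (a * m / 2 * j) := by
    nlinarith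
  have e8 : (y0 : ℝ) + 2 ≤ y := by linarith
  refine ⟨e1, e2, e3, e4, ?_, ?_, ?_, ?_⟩
  · have : (y0 : ℝ) ≤ y := by linarith
    exact_mod_cast this
  · have : ((2 : ℕ) : ℝ) ≤ y := by
      push_cast
      linarith
    exact_mod_cast this
  · linarith
  · have hy1 : (0 : ℝ) < y := by linarith
    have e9 : Real.log y ≤ Real.log t + a * Real.log z := by
      have := Real.log_le_log hy1 e3
      rwa [e1, Real.log_exp] at this
    have e10 : a * Real.log z ≤ a * |M0| * j := by
      have h1 : Real.log z ≤ |M0| * j :=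
        hz'.trans (mul_le_mul_of_nonneg_right (le_abs_self _) (by linarith))
      have := mul_le_mul_of_nonneg_left h1 ha.le
      linarith
    have e11 : Real.log t ≤ |Real.log t| * j := by
      have h1 := le_abs_self (Real.log t)
      have h2 := abs_nonneg (Real.log t)
      nlinarith
    have e12 : (|Real.log t| + a * |M0| + 1) * j = |Real.log t| * j + a * |M0| * j + j := by ring
    rw [e12]
    linarith

/-- SPS. -/
theorem p_SPS (hFNC : S_FNC) : S_SPS := by
  intro K z hK q hq1 hq2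
  obtain ⟨hmono, hfq2, y0, hy0⟩ := hFNC
  obtain ⟨C, B, J, c, m, M0, lam, hc, hm, hl1, hl2, hH⟩ := hK
  obtain ⟨t, a⟩ := q
  simp only at hq1 hq2
  have hb : 0 < a * m / 2 := by positivity
  set c1 : ℝ := |Real.log t| + a * |M0| + 1 with hc1
  have hc1p : 0 < c1 := by positivity
  set a' : ℝ := min a 1 with ha'
  have ha'p : 0 < a' := lt_min hq2 one_pos
  have ha'1 : a' ≤ 1 := min_le_right _ _
  have ha'a : a' ≤ a := min_le_left _ _
  set lam' : ℝ := min lam (Real.exp (a * m / 2)) with hlam'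
  have hl'1 : 1 < lam' := lt_min hl1 (Real.one_lt_exp_iff.mpr hb)
  have hl'l : lam' ≤ lam := min_le_left _ _
  have hl'e : lam' ≤ Real.exp (a * m / 2) := min_le_right _ _
  have E3 : ∀ᶠ j : ℕ in Filter.atTop,
      ‖(j : ℝ) ^ 0‖ ≤ (t / ((y0 : ℝ) + 3)) * ‖Real.exp (a * m / 2 * j)‖ :=
    tendsto_natCast_atTop_atTop.eventually
      ((isLittleO_pow_exp_pos_mul_atTop (k := 0) hb).bound (by positivity))
  have E4 : ∀ᶠ j : ℕ in Filter.atTop,
      ‖(j : ℝ) ^ B‖ ≤ (t * a' / 4) * ‖Real.exp (a * m / 2 * j)‖ :=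
    tendsto_natCast_atTop_atTop.eventually
      ((isLittleO_pow_exp_pos_mul_atTop (k := B) hb).bound (by positivity))
  have E5 : ∀ᶠ j : ℕ in Filter.atTop, 4 * c1 ^ 2 / a' ≤ (j : ℝ) :=
    tendsto_natCast_atTop_atTop.eventually (Filter.eventually_ge_atTop _)
  obtain ⟨J', hJ'⟩ := Filter.eventually_atTop.mp
    ((Filter.eventually_ge_atTop J).and ((Filter.eventually_ge_atTop 1).and (E3.and (E4.and E5))))
  refine ⟨B + 3, J', a * m / 2, 3 * c1, lam', hb, hl'1, hl'l.trans hl2, ?_⟩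
  intro j hj
  obtain ⟨h1, h2, h3, h4, h5⟩ := hJ' j hj
  obtain ⟨-, hS, hD⟩ := hH j h1
  have hj' : (1 : ℝ) ≤ j := by exact_mod_cast h2
  have hw0 : 0 < Real.exp (a * m / 2 * j) := Real.exp_pos _
  have hy00 : (0 : ℝ) ≤ y0 := Nat.cast_nonneg _
  have h3' : (y0 : ℝ) + 3 ≤ t * Real.exp (a * m / 2 * j) := by
    rw [pow_zero, norm_one, Real.norm_eq_abs, abs_of_pos hw0, div_mul_eq_mul_div,
      le_div_iff₀ (by linarith)] at h3
    linarith
  have h4' : 4 * (j : ℝ) ^ B ≤ a' * (t * Real.exp (a * m / 2 * j)) := by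
    rw [Real.norm_eq_abs, Real.norm_eq_abs, abs_of_pos hw0, abs_of_nonneg (by positivity)] at h4
    linarith
  have h5' : 4 * c1 ^ 2 ≤ a' * j := by
    rw [div_le_iff₀ ha'p] at h5
    linarith
  have fact := fun k (hk : k ∈ win K 2 j) =>
    SPS_one hq1 hq2 hm h2 (hS k hk).1 (hS k hk).2 h3' (nx (t, a) (z k)) rfl
  have hfq : ∀ y : ℕ, 2 ≤ y → y ≤ fq y := by
    intro y hy
    have := hmono 2 y le_rfl hy
    rw [hfq2] at this
    omega
  constructor
  · intro k hk
    obtain ⟨f1, f2, f3, f4, f5, f6, f7, f8⟩ := fact k hk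
    have g1 := hfq _ f6
    have g2 := hy0 _ f5
    have hy2 : (2 : ℝ) ≤ (nx (t, a) (z k) : ℝ) := by exact_mod_cast f6
    have g3 : (nx (t, a) (z k) : ℝ) ≤ (fq (nx (t, a) (z k)) : ℝ) := by exact_mod_cast g1
    have hy1 : (0 : ℝ) < (nx (t, a) (z k) : ℝ) := by linarith
    have hf1 : (0 : ℝ) < (fq (nx (t, a) (z k)) : ℝ) := by linarith
    have hlp : 0 < Real.log (nx (t, a) (z k) : ℝ) := Real.log_pos (by linarith)
    constructor
    · have g4 := Real.log_le_log hw0 (f7.trans g3)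
      rwa [Real.log_exp] at g4
    · have g5 := Real.log_le_log hf1 g2
      rw [Real.log_mul hy1.ne' (pow_pos hlp 2).ne', Real.log_pow] at g5
      have g6 : Real.log (Real.log (nx (t, a) (z k) : ℝ)) ≤ Real.log (nx (t, a) (z k) : ℝ) := by
        have := Real.log_le_sub_one_of_pos hlp
        linarith
      push_cast at g5
      have g7 : 3 * c1 * j = 3 * (c1 * j) := by ring
      rw [g7]
      linarith
  · intro k hk k' hk' hkk
    obtain ⟨f1, f2, f3, f4, f5, f6, f7, f8⟩ := fact k hk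
    obtain ⟨f1', f2', f3', f4', f5', f6', f7', f8'⟩ := fact k' hk'
    have hp2 : (0 : ℝ) < 2 ^ j := by positivity
    have hjB : (1 : ℝ) ≤ (j : ℝ) ^ B := one_le_pow₀ hj'
    have hlj : 0 < lam' ^ j := by positivity
    -- the hypothesis applies
    have k1 : (2 / lam) ^ j ≤ (2 / lam') ^ j := by
      refine pow_le_pow_left₀ (by positivity) ?_ j
      exact div_le_div_of_nonneg_left (by norm_num) (by linarith) hl'l
    have k2 := hD k hk k' hk' (k1.trans hkk)
    have k3 : (k : ℝ) - k' ≤ 2 ^ j := by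
      have hk1 := hk
      have hk2 := hk'
      simp only [win, Finset.mem_filter, Finset.mem_Ioc] at hk1 hk2
      have e1 : (k : ℝ) ≤ 2 ^ (j + 1) := by
        have := Nat.floor_le (a := (2 : ℝ) ^ (j + 1)) (by positivity)
        have h' : (k : ℝ) ≤ (⌊(2 : ℝ) ^ (j + 1)⌋₊ : ℝ) := by exact_mod_cast hk1.1.2
        linarith
      have e2 : (2 : ℝ) ^ j ≤ k' := (Nat.lt_of_floor_lt hk2.1.1).le
      rw [pow_succ] at e1
      linarith
    set D : ℝ := ((k : ℝ) - k') / (2 ^ j * (j : ℝ) ^ B) with hDdef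
    have hpB : 0 < (2 : ℝ) ^ j * (j : ℝ) ^ B := by positivity
    have hD1 : D ≤ 1 := by
      rw [hDdef, div_le_one hpB]
      nlinarith
    have hD2 : 1 ≤ D * (lam' ^ j * (j : ℝ) ^ B) := by
      rw [div_pow, div_le_iff₀ hlj] at hkk
      rw [hDdef, div_mul_eq_mul_div, le_div_iff₀ hpB]
      have := mul_le_mul_of_nonneg_right hkk (show (0 : ℝ) ≤ (j : ℝ) ^ B by positivity)
      linarith
    have hD0 : 0 < D := by
      by_contra hneg
      have : D * (lam' ^ j * (j : ℝ) ^ B) ≤ 0 :=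
        mul_nonpos_of_nonpos_of_nonneg (not_lt.mp hneg) (by positivity)
      linarith
    have hle : lam' ^ j ≤ Real.exp (a * m / 2 * j) := by
      have e1 : Real.exp (a * m / 2 * j) = Real.exp (a * m / 2) ^ j := by
        rw [← Real.exp_nat_mul, mul_comm]
      rw [e1]
      exact pow_le_pow_left₀ (by linarith) hl'e j
    set w : ℝ := Real.exp (a * m / 2 * j) with hw
    set X : ℝ := t * (z k : ℝ) ^ a with hX
    set X' : ℝ := t * (z k' : ℝ) ^ a with hX'
    set y : ℕ := nx (t, a) (z k) with hy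
    set y' : ℕ := nx (t, a) (z k') with hy'
    have hXp : 0 < X := by rw [f1]; exact Real.exp_pos _
    -- X * D * a' ≥ 4
    have k4 : 4 ≤ X * (a' * D) := by
      have e1 : 1 ≤ D * (w * (j : ℝ) ^ B) := by
        refine hD2.trans (mul_le_mul_of_nonneg_left ?_ hD0.le)
        exact mul_le_mul_of_nonneg_right hle (by positivity)
      have e2 : 4 * (j : ℝ) ^ B * (D * w) ≤ a' * (t * w) * (D * w) :=
        mul_le_mul_of_nonneg_right h4' (by positivity)
      have e3 : t * (w * w) * (a' * D) ≤ X * (a' * D) :=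
        mul_le_mul_of_nonneg_right f2 (by positivity)
      have e4 : 4 * (j : ℝ) ^ B * (D * w) = 4 * (D * (w * (j : ℝ) ^ B)) := by ring
      have e5 : a' * (t * w) * (D * w) = t * (w * w) * (a' * D) := by ring
      linarith
    have k5 : X' ≤ X * Real.exp (-(a' * D)) := by
      rw [f1, f1', ← Real.exp_add]
      apply Real.exp_le_exp.mpr
      have e1 : a' * D ≤ a * (Real.log (z k) - Real.log (z k')) :=
        mul_le_mul ha'a k2 hD0.le hq2.le
      linarith
    have k6 := SPS_exp (x := a' * D) (by positivity) (mul_le_one₀ ha'1 hD0.le hD1)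
    have k7 : X * (a' * D / 2) ≤ X - X' := by
      have := mul_le_mul_of_nonneg_left k6 hXp.le
      linarith
    have k8 : X * (a' * D) / 4 ≤ (y : ℝ) - y' := by linarith
    have hy1 : (0 : ℝ) < y := by
      have : (2 : ℝ) ≤ (y : ℝ) := by exact_mod_cast f6
      linarith
    have k9 : (y : ℝ) * (a' * D) / 4 ≤ (y : ℝ) - y' := by
      have := mul_le_mul_of_nonneg_right f3 (show 0 ≤ a' * D by positivity)
      linarith
    have hyy : y' ≤ y := by
      have : (y' : ℝ) ≤ y := by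
        have : 0 < (y : ℝ) * (a' * D) := by positivity
        linarith
      exact_mod_cast this
    have k10 : (y : ℝ) - y' ≤ (fq y : ℝ) - fq y' := by
      have e1 := hmono y' y f6' hyy
      have e2 : y + fq y' ≤ fq y + y' := by omega
      have e3 : (y : ℝ) + fq y' ≤ fq y + y' := by exact_mod_cast e2
      linarith
    have hv : (0 : ℝ) < fq y := by
      have := hfq y f6
      have : (y : ℝ) ≤ fq y := by exact_mod_cast this
      linarith
    have hu : (0 : ℝ) < fq y' := by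
      have := hfq y' f6'
      have : (0 : ℕ) < fq y' := by omega
      exact_mod_cast this
    refine le_trans ?_ (SPS_log hu hv)
    rw [le_div_iff₀ hv]
    have k11 := hy0 y f5
    have hly : 0 ≤ Real.log (y : ℝ) := by
      apply Real.log_nonneg
      have : (2 : ℝ) ≤ (y : ℝ) := by exact_mod_cast f6
      linarith
    have k12 : (fq y : ℝ) ≤ y * (c1 * j) ^ 2 := by
      refine k11.trans (mul_le_mul_of_nonneg_left ?_ hy1.le)
      exact pow_le_pow_left₀ hly f8 2
    have k13 : ((k : ℝ) - k') / (2 ^ j * (j : ℝ) ^ (B + 3)) = D / (j : ℝ) ^ 3 := by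
      rw [hDdef, div_div, pow_add, mul_assoc]
    rw [k13]
    have k14 : D / (j : ℝ) ^ 3 * (fq y : ℝ) ≤ D / (j : ℝ) ^ 3 * (y * (c1 * j) ^ 2) :=
      mul_le_mul_of_nonneg_left k12 (by positivity)
    have k15 : D / (j : ℝ) ^ 3 * (y * (c1 * j) ^ 2) = D * y * c1 ^ 2 / j := by
      have : (j : ℝ) ≠ 0 := by linarith
      field_simp
    have k16 : D * y * c1 ^ 2 / j ≤ (y : ℝ) * (a' * D) / 4 := by
      rw [div_le_iff₀ (by linarith)]
      have := mul_le_mul_of_nonneg_left h5' (show 0 ≤ D * (y : ℝ) by positivity)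
      linarith
    linarith

end Pool.Mtc
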