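import Pool.Agent.Work.MP_e7bfc9_mtc.Interface

/-!
# Block SPS (second copy): size and separation of the next term
-/

set_option autoImplicit false

open Finset MeasureTheory Filter Topology

namespace Pool.Mtc

namespace SPSx

/-- polynomial against exponential -/
theorem pow_exp (b ε : ℝ) (hb : 0 < b) (hε : 0 < ε) (n : ℕ) :
    ∀ᶠ j : ℕ in atTop, (j : ℝ) ^ n * Real.exp (-(b * j)) ≤ ε := by
  have h1 : Tendsto (fun j : ℕ => b * (j : ℝ)) atTop atTop :=
    Tendsto.const_mul_atTop hb tendsto_natCast_atTop_atTop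
  have h2 := (Real.tendsto_pow_mul_exp_neg_atTop_nhds_zero n).comp h1
  have hp : 0 < ε * b ^ n := by positivity
  filter_upwards [h2.eventually (Iic_mem_nhds hp)] with j hj
  have hj' : (b * (j : ℝ)) ^ n * Real.exp (-(b * j)) ≤ ε * b ^ n := hj
  rw [mul_pow] at hj'
  have hbn : 0 < b ^ n := pow_pos hb n
  have h3 : b ^ n * ((j : ℝ) ^ n * Real.exp (-(b * j))) ≤ b ^ n * ε := by
    calc b ^ n * ((j : ℝ) ^ n * Real.exp (-(b * j)))
        = b ^ n * (j : ℝ) ^ n * Real.exp (-(b * j)) := by ring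
      _ ≤ ε * b ^ n := hj'
      _ = b ^ n * ε := by ring
  exact le_of_mul_le_mul_left h3 hbn

theorem exp_large (b X : ℝ) (hb : 0 < b) : ∀ᶠ j : ℕ in atTop, X ≤ Real.exp (b * j) := by
  have h1 : Tendsto (fun j : ℕ => b * (j : ℝ)) atTop atTop :=
    Tendsto.const_mul_atTop hb tendsto_natCast_atTop_atTop
  exact (Real.tendsto_exp_atTop.comp h1).eventually_ge_atTop X

/-- facts for one term -/
theorem one_term (t a u b N L X J : ℝ) (y0 zk : ℕ) (ht : 0 < t) (ha : 0 < a)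
    (hu : Real.log zk = u) (hu0 : 0 < u) (hJ1 : 1 ≤ J) (hXe : X = Real.exp (b * J))
    (hub : 2 * (b * J) ≤ u * a) (huN : u ≤ N * J) (hL : L = |Real.log t| + a * N)
    (x1 : (y0 : ℝ) ≤ X) (x2 : 2 ≤ X) (x3 : 2 ≤ X * t) :
    t * X ^ 2 ≤ t * Real.exp (u * a) ∧ ((nx (t, a) zk : ℕ) : ℝ) ≤ t * Real.exp (u * a) ∧
      t * Real.exp (u * a) < (nx (t, a) zk : ℝ) + 1 ∧ X ≤ (nx (t, a) zk : ℝ) ∧
      y0 ≤ nx (t, a) zk ∧ 2 ≤ nx (t, a) zk ∧ Real.log (nx (t, a) zk) ≤ L * J := by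
  have hz0 : 0 < (zk : ℝ) := by
    rcases Nat.eq_zero_or_pos zk with h | h
    · rw [h] at hu
      simp at hu
      linarith
    · exact_mod_cast h
  have hE : t * (zk : ℝ) ^ a = t * Real.exp (u * a) := by
    rw [Real.rpow_def_of_pos hz0, hu]
  have hfl1 : ((nx (t, a) zk : ℕ) : ℝ) ≤ t * Real.exp (u * a) := by
    rw [← hE]
    exact Nat.floor_le (by positivity)
  have hfl2 : t * Real.exp (u * a) < (nx (t, a) zk : ℝ) + 1 := by
    rw [← hE]
    exact Nat.lt_floor_add_one _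
  have hx2 : X ^ 2 ≤ Real.exp (u * a) := by
    rw [hXe, ← Real.exp_nat_mul]
    apply Real.exp_le_exp.2
    push_cast
    exact hub
  have hE2 : t * X ^ 2 ≤ t * Real.exp (u * a) := mul_le_mul_of_nonneg_left hx2 ht.le
  have hXy : X ≤ (nx (t, a) zk : ℝ) := by nlinarith
  have hy2 : (2 : ℝ) ≤ (nx (t, a) zk : ℝ) := x2.trans hXy
  refine ⟨hE2, hfl1, hfl2, hXy, ?_, ?_, ?_⟩
  · exact_mod_cast x1.trans hXy
  · exact_mod_cast hy2
  · have h1 : Real.log (nx (t, a) zk) ≤ Real.log (t * Real.exp (u * a)) :=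
      Real.log_le_log (by linarith) hfl1
    rw [Real.log_mul ht.ne' (Real.exp_pos _).ne', Real.log_exp] at h1
    have h2 : Real.log t ≤ |Real.log t| := le_abs_self _
    have h3 : |Real.log t| ≤ |Real.log t| * J := by
      have := abs_nonneg (Real.log t)
      nlinarith
    have h4 : u * a ≤ N * J * a := mul_le_mul_of_nonneg_right huN ha.le
    rw [hL]
    nlinarith

/-- size of the next term -/
theorem size_term (X J L b : ℝ) (y F : ℕ) (hXe : X = Real.exp (b * J)) (hXy : X ≤ (y : ℝ))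
    (hy : 2 ≤ y) (hyF : y ≤ F) (hF : (F : ℝ) ≤ y * (Real.log y) ^ 2)
    (hlog : Real.log y ≤ L * J) :
    b * J ≤ Real.log F ∧ Real.log F ≤ 3 * L * J := by
  have hy2 : (2 : ℝ) ≤ y := by exact_mod_cast hy
  have hyF' : (y : ℝ) ≤ F := by exact_mod_cast hyF
  constructor
  · have h1 : Real.log X ≤ Real.log F :=
      Real.log_le_log (by rw [hXe]; exact Real.exp_pos _) (hXy.trans hyF')
    rwa [hXe, Real.log_exp] at h1
  · have h0 : 0 ≤ Real.log y := Real.log_nonneg (by linarith)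
    have h1 : Real.log y ≤ y := (Real.log_le_sub_one_of_pos (by linarith)).trans (by linarith)
    have h2 : (F : ℝ) ≤ (y : ℝ) ^ 3 := by
      calc (F : ℝ) ≤ y * (Real.log y) ^ 2 := hF
        _ ≤ y * (y : ℝ) ^ 2 := by gcongr
        _ = (y : ℝ) ^ 3 := by ring
    have h3 : Real.log F ≤ Real.log ((y : ℝ) ^ 3) := Real.log_le_log (by linarith) h2
    rw [Real.log_pow] at h3
    push_cast at h3
    linarith

/-- the separation, real inequalities -/
theorem sep_term (t a u u' N P L X J b D JB : ℝ) (y y' F F' : ℕ) (ht : 0 < t) (ha : 0 < a)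
    (hJ1 : 1 ≤ J) (hX : 0 < X) (hP : P = 1 + a * N) (hP0 : 0 < P) (hL0 : 0 < L)
    (hD : 0 < D) (hJB : 0 < JB) (hDX : 1 ≤ D * (X * JB)) (hΔ : D ≤ u - u') (hu' : 0 ≤ u')
    (huN : u ≤ N * J) (hE : t * X ^ 2 ≤ t * Real.exp (u * a))
    (hy : (y : ℝ) ≤ t * Real.exp (u * a)) (hy1 : t * Real.exp (u * a) < y + 1)
    (hy' : (y' : ℝ) ≤ t * Real.exp (u' * a)) (hlog : Real.log y ≤ L * J) (hy2 : 2 ≤ y)
    (hJB2 : 2 * P * (J * JB) ≤ t * a * X) (hJ3 : 2 * P * L ^ 2 ≤ a * J)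
    (hF : (F : ℝ) ≤ y * (Real.log y) ^ 2) (hyF : y ≤ F) (hF'0 : 0 < F')
    (hFF : y' ≤ y → y - y' + F' ≤ F) :
    D / J ^ 4 ≤ Real.log F - Real.log F' := by
  have hy2' : (2 : ℝ) ≤ y := by exact_mod_cast hy2
  have hyF' : (y : ℝ) ≤ F := by exact_mod_cast hyF
  have hJ0 : 0 < J := by linarith
  set E := t * Real.exp (u * a) with hEd
  have hE0 : 0 < E := by positivity
  set w := a * (u - u') with hw
  have hwD : a * D ≤ w := mul_le_mul_of_nonneg_left hΔ ha.le
  have hw0 : 0 < w := lt_of_lt_of_le (by positivity) hwD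
  have hwP : 1 + w ≤ P * J := by
    have h1 : u - u' ≤ N * J := by linarith
    have h2 : a * (u - u') ≤ a * (N * J) := mul_le_mul_of_nonneg_left h1 ha.le
    rw [hP, hw]
    nlinarith
  have hE' : t * Real.exp (u' * a) = E * Real.exp (-w) := by
    rw [hEd, mul_assoc, ← Real.exp_add]
    congr 2
    rw [hw]
    ring
  have hexp : Real.exp (-w) ≤ 1 / (1 + w) := by
    rw [Real.exp_neg, inv_eq_one_div]
    apply one_div_le_one_div_of_le (by linarith)
    have := Real.add_one_le_exp w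
    linarith
  have h1w : w / (1 + w) ≤ 1 - Real.exp (-w) := by
    have : w / (1 + w) = 1 - 1 / (1 + w) := by
      field_simp
      ring
    rw [this]
    linarith
  have h2w : a * D / (P * J) ≤ w / (1 + w) := by
    apply div_le_div₀ hw0.le hwD (by linarith) hwP
  have h3 : E * (a * D / (P * J)) ≤ E - t * Real.exp (u' * a) := by
    rw [hE']
    have := mul_le_mul_of_nonneg_left (h2w.trans h1w) hE0.le
    linarith
  -- `1 ≤ E a D / (2 P J)`
  have h4 : 1 ≤ E * (a * D / (P * J)) / 2 := by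
    have h5 : 2 * P * J ≤ E * (a * D) := by
      have h6 : t * X ^ 2 * (a * D) ≤ E * (a * D) :=
        mul_le_mul_of_nonneg_right hE (by positivity)
      refine le_trans ?_ h6
      have h7 : 2 * P * (J * JB) ≤ t * a * X * (D * (X * JB)) := by
        calc 2 * P * (J * JB) ≤ t * a * X := hJB2
          _ = t * a * X * 1 := by ring
          _ ≤ t * a * X * (D * (X * JB)) := mul_le_mul_of_nonneg_left hDX (by positivity)
      have h8 : 2 * P * J * JB ≤ t * X ^ 2 * (a * D) * JB := by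
        calc 2 * P * J * JB = 2 * P * (J * JB) := by ring
          _ ≤ t * a * X * (D * (X * JB)) := h7
          _ = t * X ^ 2 * (a * D) * JB := by ring
      exact le_of_mul_le_mul_right h8 hJB
    have h9 : E * (a * D / (P * J)) / 2 = E * (a * D) / (2 * P * J) := by
      field_simp
    rw [h9, one_le_div (by positivity)]
    exact h5
  have h10 : E * (a * D / (P * J)) / 2 ≤ (y : ℝ) - y' := by linarith
  have hDP : 0 < a * D / (P * J) := by positivity
  have h11 : (y : ℝ) * (a * D / (P * J)) / 2 ≤ (y : ℝ) - y' := by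
    refine le_trans ?_ h10
    have := mul_le_mul_of_nonneg_right hy hDP.le
    linarith
  have hyy : y' ≤ y := by
    have : (y' : ℝ) ≤ y := by
      have : 0 < (y : ℝ) * (a * D / (P * J)) := by positivity
      linarith
    exact_mod_cast this
  have hFF2 : (y : ℝ) - y' ≤ (F : ℝ) - F' := by
    have h := hFF hyy
    have h2 : ((y - y' + F' : ℕ) : ℝ) ≤ F := by exact_mod_cast h
    rw [Nat.cast_add, Nat.cast_sub hyy] at h2
    linarith
  have hF0 : (0 : ℝ) < F := by linarith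
  have hF'0' : (0 : ℝ) < F' := by exact_mod_cast hF'0
  have h12 : ((F : ℝ) - F') / F ≤ Real.log F - Real.log F' := by
    have h := Real.log_le_sub_one_of_pos (div_pos hF'0' hF0)
    rw [Real.log_div hF'0'.ne' hF0.ne'] at h
    have e : ((F : ℝ) - F') / F = 1 - F' / F := by
      rw [sub_div, div_self hF0.ne']
    rw [e]
    linarith
  refine le_trans ?_ h12
  rw [le_div_iff₀ hF0]
  have hlog0 : 0 ≤ Real.log y := Real.log_nonneg (by linarith)
  have h13 : (F : ℝ) ≤ y * (L * J) ^ 2 := by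
    refine hF.trans ?_
    gcongr
  have h14 : D / J ^ 4 * F ≤ D / J ^ 4 * (y * (L * J) ^ 2) :=
    mul_le_mul_of_nonneg_left h13 (by positivity)
  refine h14.trans (le_trans ?_ (h11.trans hFF2))
  have h15 : D / J ^ 4 * (y * (L * J) ^ 2) = (y * D / J ^ 2) * L ^ 2 := by
    field_simp
  have h16 : (y : ℝ) * (a * D / (P * J)) / 2 = (y * D / J ^ 2) * (a * J / (2 * P)) := by
    field_simp
  rw [h15, h16]
  apply mul_le_mul_of_nonneg_left _ (by positivity)
  rw [le_div_iff₀ (by positivity)]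
  linarith

end SPSx

open SPSx in
theorem p_SPSx (hFNC : S_FNC) : S_SPS := by
  intro K z hH q ht ha
  obtain ⟨hmono, hf2, y0, hy0⟩ := hFNC
  obtain ⟨C, B, J, c, m, M0, lam, hc, hm, hlam, hlam2, hJ⟩ := hH
  obtain ⟨t, a⟩ := q
  simp only at ht ha
  have hfge : ∀ y : ℕ, 2 ≤ y → y ≤ fq y := by
    intro y hy
    have := hmono 2 y le_rfl hy
    omega
  obtain ⟨N, hN⟩ : ∃ N : ℝ, N = |M0| + 1 := ⟨_, rfl⟩
  have hN1 : 1 ≤ N := by
    have := abs_nonneg M0
    linarith
  obtain ⟨b, hb⟩ : ∃ b : ℝ, b = a * m / 2 := ⟨_, rfl⟩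
  have hb0 : 0 < b := by rw [hb]; positivity
  obtain ⟨P, hP⟩ : ∃ P : ℝ, P = 1 + a * N := ⟨_, rfl⟩
  have hP0 : 0 < P := by rw [hP]; positivity
  obtain ⟨L, hL⟩ : ∃ L : ℝ, L = |Real.log t| + a * N := ⟨_, rfl⟩
  have hL0 : 0 < L := by
    rw [hL]
    have h1 := abs_nonneg (Real.log t)
    have h2 : 0 < a * N := by positivity
    linarith
  obtain ⟨lam', hl⟩ : ∃ l : ℝ, l = min lam (Real.exp b) := ⟨_, rfl⟩
  have hl1 : 1 < lam' := by
    rw [hl]
    exact lt_min hlam (Real.one_lt_exp_iff.2 hb0)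
  have hlle : lam' ≤ lam := by rw [hl]; exact min_le_left _ _
  have hlb : lam' ≤ Real.exp b := by rw [hl]; exact min_le_right _ _
  have E1 := exp_large b (max (max (y0 : ℝ) 2) (2 / t)) hb0
  have E2 := pow_exp b (t * a / (2 * P)) hb0 (by positivity) (B + 1)
  have E3 : ∀ᶠ j : ℕ in atTop, 2 * P * L ^ 2 / a ≤ (j : ℝ) :=
    tendsto_natCast_atTop_atTop.eventually_ge_atTop _
  have E4 : ∀ᶠ j : ℕ in atTop, 1 ≤ j := eventually_ge_atTop 1
  have E5 : ∀ᶠ j : ℕ in atTop, J ≤ j := eventually_ge_atTop J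
  obtain ⟨J', hJ'⟩ := eventually_atTop.1 (E1.and (E2.and (E3.and (E4.and E5))))
  refine ⟨B + 4, J', b, 3 * L, lam', hb0, hl1, hlle.trans hlam2, fun j hj => ?_⟩
  obtain ⟨e1, e2, e3, e4, e5⟩ := hJ' j hj
  obtain ⟨-, hsz, hsep⟩ := hJ j e5
  have hj1 : (1 : ℝ) ≤ j := by exact_mod_cast e4
  have hj0 : (0 : ℝ) < j := by linarith
  obtain ⟨X, hX⟩ : ∃ X : ℝ, X = Real.exp (b * j) := ⟨_, rfl⟩
  rw [← hX] at e1
  have hX0 : 0 < X := by rw [hX]; exact Real.exp_pos _
  have x1 : (y0 : ℝ) ≤ X := ((le_max_left _ _).trans (le_max_left _ _)).trans e1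
  have x2 : (2 : ℝ) ≤ X := ((le_max_right _ _).trans (le_max_left _ _)).trans e1
  have x3 : 2 ≤ X * t := (div_le_iff₀ ht).1 ((le_max_right _ _).trans e1)
  have huN : ∀ k ∈ win K 2 j, Real.log (z k) ≤ N * j := by
    intro k hk
    refine (hsz k hk).2.trans ?_
    apply mul_le_mul_of_nonneg_right _ hj0.le
    have := le_abs_self M0
    linarith
  have hu0 : ∀ k ∈ win K 2 j, 0 < Real.log (z k) := fun k hk =>
    lt_of_lt_of_le (by positivity) (hsz k hk).1
  have key := fun k (hk : k ∈ win K 2 j) =>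
    one_term t a (Real.log (z k)) b N L X j y0 (z k) ht ha rfl (hu0 k hk) hj1 hX (by
      have := mul_le_mul_of_nonneg_right (hsz k hk).1 ha.le
      rw [hb]
      nlinarith) (huN k hk) hL x1 x2 x3
  refine ⟨fun k hk => ?_, fun k hk k' hk' hkk => ?_⟩
  · obtain ⟨-, -, -, h4, h5, h6, h7⟩ := key k hk
    exact size_term X j L b _ _ hX h4 h6 (hfge _ h6) (hy0 _ h5) h7
  · obtain ⟨g1, g2, g3, g4, g5, g6, g7⟩ := key k hk
    obtain ⟨-, g2', -, g4', g5', g6', g7'⟩ := key k' hk'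
    have hlam0 : 0 < lam' := by linarith
    have hpl : (2 / lam) ^ j ≤ (2 / lam') ^ j := by
      apply pow_le_pow_left₀ (by positivity)
      apply div_le_div_of_nonneg_left (by norm_num) hlam0 hlle
    have hΔ := hsep k hk k' hk' (hpl.trans hkk)
    have hpos2 : (0 : ℝ) < 2 ^ j := by positivity
    have hkk0 : (0 : ℝ) < (k : ℝ) - k' := lt_of_lt_of_le (by positivity) hkk
    have hJB : (0 : ℝ) < (j : ℝ) ^ B := by positivity
    obtain ⟨D, hD⟩ : ∃ D : ℝ, D = ((k : ℝ) - k') / (2 ^ j * (j : ℝ) ^ B) := ⟨_, rfl⟩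
    have hD0 : 0 < D := by rw [hD]; positivity
    have hDX : 1 ≤ D * (X * (j : ℝ) ^ B) := by
      have h1 : D * (X * (j : ℝ) ^ B) = ((k : ℝ) - k') * X / 2 ^ j := by
        rw [hD]
        field_simp
      rw [h1, one_le_div hpos2]
      have h2 : lam' ^ j ≤ X := by
        rw [hX, mul_comm, Real.exp_nat_mul]
        exact pow_le_pow_left₀ hlam0.le hlb j
      calc (2 : ℝ) ^ j = (2 / lam') ^ j * lam' ^ j := by
            rw [← mul_pow, div_mul_cancel₀ _ hlam0.ne']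
        _ ≤ ((k : ℝ) - k') * X := by gcongr
    have hJB2 : 2 * P * (j * (j : ℝ) ^ B) ≤ t * a * X := by
      have h1 : (j : ℝ) ^ (B + 1) ≤ t * a / (2 * P) * X := by
        have h2 := mul_le_mul_of_nonneg_right e2 hX0.le
        have h3 : (j : ℝ) ^ (B + 1) * Real.exp (-(b * j)) * X = (j : ℝ) ^ (B + 1) := by
          rw [hX, mul_assoc, ← Real.exp_add]
          simp
        rwa [h3] at h2
      have h4 : (j : ℝ) * (j : ℝ) ^ B = (j : ℝ) ^ (B + 1) := by ring
      rw [h4]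
      calc 2 * P * (j : ℝ) ^ (B + 1) ≤ 2 * P * (t * a / (2 * P) * X) := by gcongr
        _ = t * a * X := by field_simp
    have hJ3 : 2 * P * L ^ 2 ≤ a * j := by
      rw [div_le_iff₀ ha] at e3
      linarith
    have hfin := sep_term t a (Real.log (z k)) (Real.log (z k')) N P L X j b D ((j : ℝ) ^ B)
      (nx (t, a) (z k)) (nx (t, a) (z k')) (fq (nx (t, a) (z k))) (fq (nx (t, a) (z k'))) ht ha
      hj1 hX0 hP hP0 hL0 hD0 hJB hDX (by rw [hD]; exact hΔ) (hu0 k' hk').le (huN k hk) g1 g2 g3 g2'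
      g7 g6 hJB2 hJ3 (hy0 _ g5) (hfge _ g6) (lt_of_lt_of_le (by omega) (hfge _ g6'))
      (fun h => hmono _ _ g6' h)
    have he : ((k : ℝ) - k') / (2 ^ j * (j : ℝ) ^ (B + 4)) = D / (j : ℝ) ^ 4 := by
      rw [hD, pow_add, ← mul_assoc, div_div]
    rw [he]
    exact hfin

end Pool.Mtc
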