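import Pool.Agent.Work.MP_2176bb_mtc.Interface2

/-!
Metric form of MP_e7bfc9_nt: for almost every choice of pairs `(t_i, a_i)`, `i < m`, of positive
reals there are infinitely many primes `q_0` for which `q_{i+1} = ⌊t_i (p_{q_i} - q_i + 1)^(a_i)⌋`
is prime for all `i < m`.
-/

set_option autoImplicit false

open Finset MeasureTheory

namespace Pool.Mtc

/-- `p_n - n + 1` for `n ≥ 1`, `p_n` the `n`-th prime. -/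
noncomputable def fq (n : ℕ) : ℕ := Nat.nth Nat.Prime (n - 1) - n + 1

/-- `⌊t z^a⌋` for `q = (t, a)`. -/
noncomputable def nx (q : ℝ × ℝ) (z : ℕ) : ℕ := ⌊q.1 * (z : ℝ) ^ q.2⌋₊

/-- The chain which starts at `p` with parameters `s`: all following terms are prime. -/
def ChainP : (m : ℕ) → (Fin m → ℝ × ℝ) → ℕ → Prop
  | 0, _, _ => True
  | m + 1, s, p => (nx (s 0) (fq p)).Prime ∧
      ChainP m (fun i => s i.succ) (nx (s 0) (fq p))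

/-- Indicator function of the set of all `v` for which `⌊e^v⌋` is prime. -/
noncomputable def G1 (v : ℝ) : ℝ := if (⌊Real.exp v⌋₊).Prime then 1 else 0

/-- The bad set. -/
def badz (M δ : ℝ) (K : Finset ℕ) (z : ℕ → ℕ) : Set (ℝ × ℝ) :=
  {q | q ∈ box M ∧ ∑ k ∈ K, G1 (q.1 + q.2 * Real.log (z k)) ≤ δ / 2 * (K.card : ℝ)}

/-- Density, size and separation in the windows `(2^j, 2^(j+1)]`. -/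
def Hyp (K : ℕ → Prop) (z : ℕ → ℕ) : Prop :=
  ∃ (C B J : ℕ) (c m M0 lam : ℝ), 0 < c ∧ 0 < m ∧ 1 < lam ∧ lam ≤ 2 ∧ ∀ j : ℕ, J ≤ j →
    c * 2 ^ j / (j : ℝ) ^ C ≤ ((win K 2 j).card : ℝ) ∧
    (∀ k ∈ win K 2 j, m * j ≤ Real.log (z k) ∧ Real.log (z k) ≤ M0 * j) ∧
    (∀ k ∈ win K 2 j, ∀ k' ∈ win K 2 j, (2 / lam) ^ j ≤ (k : ℝ) - k' →
      ((k : ℝ) - k') / (2 ^ j * (j : ℝ) ^ B) ≤ Real.log (z k) - Real.log (z k'))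

/-- ME1. -/
def S_ME1 : Prop := Measurable G1 ∧ ∀ v, 0 ≤ G1 v ∧ G1 v ≤ 1

/-- DE1. -/
def S_DE1 : Prop := ∀ A : ℕ, ∃ v0 : ℝ, 1 ≤ v0 ∧ ∀ v h : ℝ, v0 ≤ v → 0 < h → h ≤ 1 →
  1 ≤ h * v ^ A → 1 / (256 * v ^ 2) ≤ mean G1 h v

/-- FNC. -/
def S_FNC : Prop := (∀ a b : ℕ, 2 ≤ a → a ≤ b → b - a + fq a ≤ fq b) ∧ fq 2 = 2 ∧
  ∃ y0 : ℕ, ∀ y : ℕ, y0 ≤ y → (fq y : ℝ) ≤ y * (Real.log y) ^ 2

/-- SQZ. -/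
def S_SQZ : Prop := ∀ g : ℝ → ℝ, Measurable g → (∀ v, |g v| ≤ 1) → ∀ η : ℝ, 0 ≤ η →
  (∀ a b : ℝ, a ≤ b → |∫ v in a..b, g v| ≤ η) →
  ∀ (M : ℝ) (K : Finset ℕ) (z : ℕ → ℕ) (W R T L : ℝ), 1 ≤ M → 1 ≤ W → 1 ≤ R → 0 < T →
    (∀ k ∈ K, W < (k : ℝ) ∧ (k : ℝ) ≤ 2 * W) →
    (∀ k ∈ K, 0 ≤ Real.log (z k) ∧ Real.log (z k) ≤ L) →
    (∀ k ∈ K, ∀ k' ∈ K, R ≤ (k : ℝ) - k' →
      ((k : ℝ) - k') / T ≤ Real.log (z k) - Real.log (z k')) →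
    ∫ q in box M, (∑ k ∈ K, g (q.1 + q.2 * Real.log (z k))) ^ 2 ≤
      (K.card : ℝ) * (6 * M * M * R +
        (2 * M + M * L) * η * (2 * T * (1 + Real.log W)))

/-- BADZ. -/
def S_BADZ : Prop := ∀ (M : ℝ) (K : Finset ℕ) (z : ℕ → ℕ) (W R T L h δ : ℝ), 1 ≤ M → 1 ≤ W →
  1 ≤ R → 0 < T → 0 < h → 0 < δ → K.Nonempty →
  (∀ k ∈ K, W < (k : ℝ) ∧ (k : ℝ) ≤ 2 * W) →
  (∀ k ∈ K, 0 ≤ Real.log (z k) ∧ Real.log (z k) ≤ L) →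
  (∀ k ∈ K, ∀ k' ∈ K, R ≤ (k : ℝ) - k' →
    ((k : ℝ) - k') / T ≤ Real.log (z k) - Real.log (z k')) →
  (∀ q ∈ box M, ∀ k ∈ K, δ ≤ mean G1 h (q.1 + q.2 * Real.log (z k))) →
  volume (badz M δ K z) ≤ ENNReal.ofReal (4 * (6 * M * M * R +
    (2 * M + M * L) * h * (2 * T * (1 + Real.log W))) / (δ ^ 2 * (K.card : ℝ)))

/-- WINZ. -/
def S_WINZ : Prop := ∀ (K : ℕ → Prop) (z : ℕ → ℕ), Hyp K z → ∀ M : ℝ, 1 ≤ M →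
  ∃ D c1 : ℝ, ∃ J' : ℕ, 0 < D ∧ 0 < c1 ∧ ∀ j : ℕ, J' ≤ j →
    volume (badz M (c1 / (j : ℝ) ^ 2) (win K 2 j) z) ≤ ENNReal.ofReal (D / (j : ℝ) ^ 2)

open Classical in
/-- AEZ. -/
def S_AEZ : Prop := ∀ (K : ℕ → Prop) (z : ℕ → ℕ), Hyp K z →
  ∀ᵐ q : ℝ × ℝ, 0 < q.2 → ∃ c' : ℝ, 0 < c' ∧ ∃ C' J' : ℕ, ∀ j : ℕ, J' ≤ j →
    c' * 2 ^ j / (j : ℝ) ^ C' ≤ (((win K 2 j).filter (fun k =>
      (⌊Real.exp (q.1 + q.2 * Real.log (z k))⌋₊).Prime)).card : ℝ)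

/-- DNS. -/
def S_DNS : Prop := ∀ (K : ℕ → Prop) (z : ℕ → ℕ), Hyp K z →
  ∀ᵐ q : ℝ × ℝ, 0 < q.1 → 0 < q.2 → ∃ c' : ℝ, 0 < c' ∧ ∃ C' J' : ℕ, ∀ j : ℕ, J' ≤ j →
    c' * 2 ^ j / (j : ℝ) ^ C' ≤ ((win (fun k => K k ∧ (nx q (z k)).Prime) 2 j).card : ℝ)

/-- SPS: size and separation of the next term (deterministic). -/
def S_SPS : Prop := ∀ (K : ℕ → Prop) (z : ℕ → ℕ), Hyp K z → ∀ q : ℝ × ℝ, 0 < q.1 → 0 < q.2 →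
  ∃ (B' J' : ℕ) (m' M' lam' : ℝ), 0 < m' ∧ 1 < lam' ∧ lam' ≤ 2 ∧ ∀ j : ℕ, J' ≤ j →
    (∀ k ∈ win K 2 j, m' * j ≤ Real.log (fq (nx q (z k))) ∧
      Real.log (fq (nx q (z k))) ≤ M' * j) ∧
    (∀ k ∈ win K 2 j, ∀ k' ∈ win K 2 j, (2 / lam') ^ j ≤ (k : ℝ) - k' →
      ((k : ℝ) - k') / (2 ^ j * (j : ℝ) ^ B') ≤
        Real.log (fq (nx q (z k))) - Real.log (fq (nx q (z k'))))

/-- STP. -/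
def S_STP : Prop := ∀ (K : ℕ → Prop) (z : ℕ → ℕ), Hyp K z →
  ∀ᵐ q : ℝ × ℝ, 0 < q.1 → 0 < q.2 →
    Hyp (fun k => K k ∧ (nx q (z k)).Prime) (fun k => fq (nx q (z k)))

/-- BAS. -/
def S_BAS : Prop := Hyp Nat.Prime fq

/-- MSB. -/
def S_MSB : Prop := ∀ (m p : ℕ), MeasurableSet {s : Fin m → ℝ × ℝ | ChainP m s p}

/-- IND. -/
def S_IND : Prop := ∀ (m : ℕ) (K : ℕ → Prop) (y : ℕ → ℕ), Hyp K (fun k => fq (y k)) →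
  ∀ᵐ s : Fin m → ℝ × ℝ, (∀ i, 0 < (s i).1 ∧ 0 < (s i).2) →
    {k | K k ∧ ChainP m s (y k)}.Infinite

/-- The theorem. -/
def S_CHN : Prop := ∀ m : ℕ, ∀ᵐ s : Fin m → ℝ × ℝ, (∀ i, 0 < (s i).1 ∧ 0 < (s i).2) →
  {p : ℕ | p.Prime ∧ ChainP m s p}.Infinite

end Pool.Mtc
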